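import Pool.Agent.Helper65_Leo.MainFam

/-!
# Signature and irreducibility for products with well separated roots
-/

set_option autoImplicit false
set_option linter.unusedSectionVars false

open Polynomial Filter Topology NumberField
open Pool.Agent.Helper65_Leo

namespace Pool.Agent.Helper65_Dens

variable {I : Type} [Fintype I]

/-- The roots of `G - 1` are close to the well separated roots of `G`. -/
theorem exists_close_roots {f : ℂ[X]} (hf : f.Monic) (hdeg : f.natDegree = Fintype.card I)
    (w : I → ℂ) (hsep : ∀ o o', o ≠ o' → 3 ≤ ‖w o - w o'‖) (hw : ∀ o, ‖f.eval (w o)‖ = 1) :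
    ∃ x : I → ℂ, f = ∏ o, (X - C (x o)) ∧ ∀ o, ‖w o - x o‖ ≤ 1 := by
  classical
  obtain ⟨y, hy⟩ := exists_enum f hf _ hdeg
  have h1 : ∀ o, ∃ i, ‖w o - y i‖ ≤ 1 := by
    intro o
    by_contra hcon
    push Not at hcon
    have h2 := hw o
    rw [hy, eval_prod, norm_prod] at h2
    simp only [eval_sub, eval_X, eval_C] at h2
    have hpos : 0 < Fintype.card I := Fintype.card_pos_iff.2 ⟨o⟩
    have h3 : 1 < ∏ i : Fin (Fintype.card I), ‖w o - y i‖ := by
      rw [← Finset.mul_prod_erase Finset.univ _ (Finset.mem_univ (⟨0, hpos⟩ : Fin (Fintype.card I)))]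
      refine one_lt_mul_of_lt_of_le (hcon _) ?_
      calc (1 : ℝ) = ∏ _i ∈ Finset.univ.erase (⟨0, hpos⟩ : Fin (Fintype.card I)), (1 : ℝ) := by simp
        _ ≤ _ := Finset.prod_le_prod (fun _ _ => zero_le_one) fun i _ => (hcon i).le
    rw [h2] at h3
    exact lt_irrefl _ h3
  choose idx hidx using h1
  have hinj : Function.Injective idx := by
    intro o o' h
    by_contra hne
    have h2 := hsep o o' hne
    have h3 := hidx o
    have h4 := hidx o'
    rw [← h] at h4
    have h5 : w o - w o' = (w o - y (idx o)) - (w o' - y (idx o)) := by ring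
    rw [h5] at h2
    have := norm_sub_le (w o - y (idx o)) (w o' - y (idx o))
    linarith
  have hbij : Function.Bijective idx :=
    (Fintype.bijective_iff_injective_and_card idx).2 ⟨hinj, (Fintype.card_fin _).symm⟩
  refine ⟨fun o => y (idx o), ?_, hidx⟩
  rw [hy]
  exact (Function.Bijective.prod_comp hbij fun i => X - C (y i)).symm

/-- The number of real places. -/
theorem nrRealPlaces_of_sep {G : ℤ[X]} (w : I → ℂ)
    (hG : G.map (Int.castRingHom ℂ) = ∏ o, (X - C (w o))) (hpos : 0 < Fintype.card I)
    (hsep : ∀ o o', o ≠ o' → 3 ≤ ‖w o - w o'‖) (st : I → I)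
    (hst : ∀ o, (starRingEnd ℂ) (w o) = w (st o)) {K : Type} [Field K] [NumberField K] {θ : K}
    (hgen : IntermediateField.adjoin ℚ {θ} = ⊤) (hroot : aeval θ (G - 1) = 0)
    (hfin : Module.finrank ℚ K = Fintype.card I) [Fintype {o // st o = o}] :
    InfinitePlace.nrRealPlaces K = Fintype.card {o // st o = o} := by
  classical
  have hGmon : (G.map (Int.castRingHom ℂ)).Monic := by
    rw [hG]
    exact monic_prod_of_monic _ _ fun o _ => monic_X_sub_C _
  have hGdeg : (G.map (Int.castRingHom ℂ)).natDegree = Fintype.card I := by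
    rw [hG, natDegree_prod_of_monic _ _ fun o _ => monic_X_sub_C _]
    simp
  set f : ℂ[X] := (G - 1).map (Int.castRingHom ℂ) with hf
  have hf' : f = G.map (Int.castRingHom ℂ) - 1 := by
    rw [hf, Polynomial.map_sub, Polynomial.map_one]
  have hfmon : f.Monic := by
    rw [hf']
    refine hGmon.sub_of_left ?_
    rw [degree_one, degree_eq_natDegree hGmon.ne_zero, hGdeg]
    exact_mod_cast hpos
  have hfdeg : f.natDegree = Fintype.card I := by
    rw [hf', natDegree_sub_eq_left_of_natDegree_lt, hGdeg]
    rw [natDegree_one, hGdeg]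
    exact hpos
  have hw : ∀ o, ‖f.eval (w o)‖ = 1 := by
    intro o
    rw [hf', eval_sub, hG, eval_prod, Finset.prod_eq_zero (Finset.mem_univ o) (by simp), eval_one,
      zero_sub, norm_neg, norm_one]
  obtain ⟨x, hx, hxw⟩ := exists_close_roots hfmon hfdeg w hsep hw
  have hroots : ∀ o, f.eval (x o) = 0 := by
    intro o
    rw [hx, eval_prod]
    exact Finset.prod_eq_zero (Finset.mem_univ o) (by simp)
  have hclose : ∀ o o', ‖w o - x o'‖ ≤ 1 → o = o' := by
    intro o o' h
    by_contra hne
    have h2 := hsep o o' hne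
    have h3 := hxw o'
    have h5 : w o - w o' = (w o - x o') - (w o' - x o') := by ring
    rw [h5] at h2
    have := norm_sub_le (w o - x o') (w o' - x o')
    linarith
  have hconj : ∀ o, (starRingEnd ℂ) (x o) = x (st o) := by
    intro o
    have h1 : f.eval ((starRingEnd ℂ) (x o)) = 0 := by
      rw [hf, eval_conj_int, ← hf, hroots, map_zero]
    rw [hx, eval_prod, Finset.prod_eq_zero_iff] at h1
    obtain ⟨o', -, ho'⟩ := h1
    simp only [eval_sub, eval_X, eval_C, sub_eq_zero] at ho'
    rw [ho']
    congr 1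
    symm
    apply hclose
    rw [← ho', ← hst, ← map_sub, Complex.norm_conj]
    exact hxw o
  obtain ⟨e, he⟩ := exists_conj_equiv hgen hroot x hx hfin.symm
  rw [nrRealPlaces_eq hgen x e he]
  refine Fintype.card_congr (Equiv.subtypeEquivRight fun o => ?_)
  rw [hconj]
  constructor
  · intro h
    apply hclose
    rw [← h]
    exact hxw (st o)
  · intro h
    rw [h]

/-- The values of an integral polynomial at a quadratic integer which are units. -/
theorem quadratic_unit (u v : ℤ[X]) (c d : ℤ) (hcd : 5 ≤ 4 * d - c ^ 2) (w : ℂ)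
    (hre : w.re = -(c : ℝ) / 2) (him : w.im ^ 2 = ((4 * d - c ^ 2 : ℤ) : ℝ) / 4)
    (hw : w ^ 2 + c * w + d = 0)
    (huv : (u.map (Int.castRingHom ℂ)).eval w * (v.map (Int.castRingHom ℂ)).eval w = -1) :
    (v.map (Int.castRingHom ℂ)).eval w = -(u.map (Int.castRingHom ℂ)).eval w := by
  set q : ℤ[X] := X ^ 2 + (C c * X + C d) with hq
  have hqmon : q.Monic := by
    refine monic_X_pow_add ?_
    refine (degree_linear_le).trans_lt ?_
    exact_mod_cast (by norm_num : (1 : ℕ) < 2)
  have hqdeg : q.natDegree = 2 := by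
    have h1 : q.degree = 2 := by
      rw [hq, degree_add_eq_left_of_degree_lt]
      · exact degree_X_pow 2
      · rw [degree_X_pow]
        refine (degree_linear_le).trans_lt ?_
        exact_mod_cast (by norm_num : (1 : ℕ) < 2)
    exact natDegree_eq_of_degree_eq_some h1
  have hcast : ∀ z : ℤ, (Int.castRingHom ℂ) z = z := fun _ => rfl
  have hqw : (q.map (Int.castRingHom ℂ)).eval w = 0 := by
    rw [hq]
    simp only [Polynomial.map_add, Polynomial.map_pow, map_X, Polynomial.map_mul, map_C, eval_add,
      eval_pow, eval_X, eval_mul, eval_C, hcast]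
    linear_combination hw
  have hred : ∀ s : ℤ[X], ∃ α β : ℤ, (s.map (Int.castRingHom ℂ)).eval w = β * w + α := by
    intro s
    have h1 : (s %ₘ q).natDegree ≤ 1 := by
      have h2 := natDegree_modByMonic_lt s hqmon (by
        intro h
        rw [h, natDegree_one] at hqdeg
        norm_num at hqdeg)
      omega
    obtain ⟨β, α, hαβ⟩ := exists_eq_X_add_C_of_natDegree_le_one h1
    refine ⟨α, β, ?_⟩
    have h2 := modByMonic_add_div s q
    have h3 := congrArg (fun r : ℤ[X] => (r.map (Int.castRingHom ℂ)).eval w) h2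
    simp only [Polynomial.map_add, Polynomial.map_mul, eval_add, eval_mul] at h3
    rw [hqw, zero_mul, add_zero, hαβ] at h3
    simp only [Polynomial.map_add, Polynomial.map_mul, map_C, map_X, eval_add, eval_mul, eval_C,
      eval_X, hcast] at h3
    exact h3.symm
  have hnorm : ∀ α β : ℤ, Complex.normSq (β * w + α) = ((α ^ 2 - α * β * c + β ^ 2 * d : ℤ) : ℝ) := by
    intro α β
    rw [Complex.normSq_apply]
    have h1 : ((β : ℂ) * w + α).re = β * w.re + α := by simp
    have h2 : ((β : ℂ) * w + α).im = β * w.im := by simp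
    rw [h1, h2, hre]
    have h3 : (β : ℝ) * w.im * (β * w.im) = β ^ 2 * w.im ^ 2 := by ring
    rw [h3, him]
    push_cast
    ring
  obtain ⟨α, β, hu⟩ := hred u
  obtain ⟨α', β', hv⟩ := hred v
  have h1 : (α ^ 2 - α * β * c + β ^ 2 * d) * (α' ^ 2 - α' * β' * c + β' ^ 2 * d) = 1 := by
    have h2 := congrArg Complex.normSq huv
    rw [map_mul, hu, hv, hnorm, hnorm, Complex.normSq_neg, map_one] at h2
    exact_mod_cast h2
  have hpos : 0 ≤ α ^ 2 - α * β * c + β ^ 2 * d := by nlinarith [sq_nonneg (2 * α - β * c)]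
  have hN : α ^ 2 - α * β * c + β ^ 2 * d = 1 := by
    have h2 : IsUnit (α ^ 2 - α * β * c + β ^ 2 * d) := IsUnit.of_mul_eq_one _ h1
    rcases Int.isUnit_iff.1 h2 with h3 | h3
    · exact h3
    · omega
  have hβ : β = 0 := by
    by_contra hne
    have h2 : 1 ≤ β ^ 2 := by
      have := sq_pos_of_ne_zero hne
      omega
    have h3 : (2 * α - β * c) ^ 2 + β ^ 2 * (4 * d - c ^ 2) = 4 := by linear_combination 4 * hN
    nlinarith [sq_nonneg (2 * α - β * c)]
  have hα : α ^ 2 = 1 := by rw [hβ] at hN; linear_combination hN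
  have hu' : (u.map (Int.castRingHom ℂ)).eval w = α := by rw [hu, hβ]; simp
  rw [hu'] at huv ⊢
  have h2 : (α : ℂ) ^ 2 = 1 := by exact_mod_cast hα
  linear_combination α * huv - (v.map (Int.castRingHom ℂ)).eval w * h2

/-- Irreducibility of `G - 1`. -/
theorem irreducible_of_pairs {G : ℤ[X]} (hGm : G.Monic) (w : I → ℂ)
    (hG : G.map (Int.castRingHom ℂ) = ∏ o, (X - C (w o))) (hpos : 0 < Fintype.card I)
    (hinj : Function.Injective w)
    (huv : ∀ (u v : ℤ[X]) (o : I), (u.map (Int.castRingHom ℂ)).eval (w o) *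
      (v.map (Int.castRingHom ℂ)).eval (w o) = -1 →
      (v.map (Int.castRingHom ℂ)).eval (w o) = -(u.map (Int.castRingHom ℂ)).eval (w o)) :
    Irreducible ((G - 1).map (Int.castRingHom ℚ)) := by
  classical
  have hGdeg : G.natDegree = Fintype.card I := by
    rw [← natDegree_map_int (F := ℂ), hG, natDegree_prod_of_monic _ _ fun o _ => monic_X_sub_C _]
    simp
  have hfmon : (G - 1).Monic := by
    refine hGm.sub_of_left ?_
    rw [degree_one, degree_eq_natDegree hGm.ne_zero, hGdeg]
    exact_mod_cast hpos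
  have hfdeg : (G - 1).natDegree = Fintype.card I := by
    rw [natDegree_sub_eq_left_of_natDegree_lt, hGdeg]
    rw [natDegree_one, hGdeg]
    exact hpos
  have key : Irreducible ((G - 1).map (algebraMap ℤ ℚ)) := by
    rw [← hfmon.irreducible_iff_irreducible_map_fraction_map, hfmon.irreducible_iff_natDegree']
    refine ⟨?_, ?_⟩
    · intro h1
      rw [h1, natDegree_one] at hfdeg
      omega
    intro u v hu hv huv' hmem
    rw [Finset.mem_Ioc, hfdeg] at hmem
    have hudeg : u.natDegree + v.natDegree = Fintype.card I := by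
      rw [← hfdeg, ← huv', hu.natDegree_mul hv]
    have hs : ∀ o, ((u + v).map (Int.castRingHom ℂ)).eval (w o) = 0 := by
      intro o
      have h1 := congrArg (fun q : ℤ[X] => (q.map (Int.castRingHom ℂ)).eval (w o)) huv'
      simp only [Polynomial.map_mul, eval_mul, Polynomial.map_sub, Polynomial.map_one, eval_sub,
        eval_one] at h1
      rw [hG, eval_prod, Finset.prod_eq_zero (Finset.mem_univ o) (by simp), zero_sub] at h1
      rw [Polynomial.map_add, eval_add, huv u v o h1]
      ring
    have hzero : (u + v).map (Int.castRingHom ℂ) = 0 := by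
      refine eq_zero_of_natDegree_lt_card_of_eval_eq_zero _ (f := w) hinj hs ?_
      rw [natDegree_map_int]
      have := natDegree_add_le u v
      omega
    have hzero' : u + v = 0 := by
      rwa [Polynomial.map_eq_zero_iff (RingHom.injective_int _)] at hzero
    have h1 : u = -v := eq_neg_of_add_eq_zero_left hzero'
    have h2 := congrArg leadingCoeff h1
    rw [leadingCoeff_neg, hu.leadingCoeff, hv.leadingCoeff] at h2
    norm_num at h2
  exact key

end Pool.Agent.Helper65_Dens
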