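import Mathlib

/-!
# Products of monic polynomials with free coefficients
-/

set_option autoImplicit false
set_option linter.unusedSectionVars false

open Polynomial Filter Topology

namespace Pool.Agent.Helper65_Dens

variable {ι : Type} [Fintype ι] (m : ι → ℕ)

/-- The index set of the coefficients. -/
abbrev Par {ι : Type} (m : ι → ℕ) : Type := Σ i, Fin (m i)

/-- The monic polynomial of degree `m i` whose lower coefficients are the `a ⟨i, k⟩`. -/
noncomputable def gpoly {S : Type*} [CommRing S] (a : Par m → S) (i : ι) : S[X] :=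
  X ^ (m i) + ∑ k : Fin (m i), C (a ⟨i, k⟩) * X ^ (k : ℕ)

/-- The product of the monic polynomials, minus one. -/
noncomputable def fpoly {S : Type*} [CommRing S] (a : Par m → S) : S[X] :=
  ∏ i, gpoly m a i - 1

variable {m}

section ring

variable {S : Type*} [CommRing S]

theorem degree_gpoly_aux (a : Par m → S) (i : ι) :
    (∑ k : Fin (m i), C (a ⟨i, k⟩) * X ^ (k : ℕ) : S[X]).degree < m i := by
  refine (degree_sum_le _ _).trans_lt ?_
  rw [Finset.sup_lt_iff (WithBot.bot_lt_coe _)]
  intro k _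
  refine (degree_C_mul_X_pow_le _ _).trans_lt ?_
  exact_mod_cast k.2

theorem gpoly_monic (a : Par m → S) (i : ι) : (gpoly m a i).Monic :=
  monic_X_pow_add (degree_gpoly_aux a i)

theorem gpoly_natDegree [Nontrivial S] (a : Par m → S) (i : ι) :
    (gpoly m a i).natDegree = m i := by
  have h : (gpoly m a i).degree = m i := by
    unfold gpoly
    rw [degree_add_eq_left_of_degree_lt, degree_X_pow]
    rw [degree_X_pow]
    exact degree_gpoly_aux a i
  exact natDegree_eq_of_degree_eq_some h

theorem prod_gpoly_monic (a : Par m → S) (s : Finset ι) : (∏ i ∈ s, gpoly m a i).Monic :=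
  monic_prod_of_monic _ _ fun i _ => gpoly_monic a i

theorem prod_gpoly_natDegree [Nontrivial S] (a : Par m → S) (s : Finset ι) :
    (∏ i ∈ s, gpoly m a i).natDegree = ∑ i ∈ s, m i := by
  rw [natDegree_prod_of_monic _ _ fun i _ => gpoly_monic a i]
  exact Finset.sum_congr rfl fun i _ => gpoly_natDegree a i

theorem fpoly_monic [Nontrivial S] (a : Par m → S) (h : 0 < ∑ i, m i) : (fpoly m a).Monic := by
  refine (prod_gpoly_monic a _).sub_of_left ?_
  rw [degree_one, degree_eq_natDegree (prod_gpoly_monic a _).ne_zero, prod_gpoly_natDegree]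
  exact_mod_cast h

theorem fpoly_natDegree [Nontrivial S] (a : Par m → S) : (fpoly m a).natDegree = ∑ i, m i := by
  unfold fpoly
  rcases Nat.eq_zero_or_pos (∑ i, m i) with h | h
  · have h1 : (∏ i, gpoly m a i).natDegree = 0 := by rw [prod_gpoly_natDegree, h]
    have h2 : (∏ i, gpoly m a i) = 1 :=
      (Polynomial.Monic.natDegree_eq_zero (prod_gpoly_monic a _)).1 h1
    rw [h2, sub_self, natDegree_zero, h]
  · rw [natDegree_sub_eq_left_of_natDegree_lt, prod_gpoly_natDegree]
    rw [natDegree_one, prod_gpoly_natDegree]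
    exact h

theorem gpoly_map {T : Type*} [CommRing T] (φ : S →+* T) (a : Par m → S) (i : ι) :
    (gpoly m a i).map φ = gpoly m (fun q => φ (a q)) i := by
  unfold gpoly
  simp [Polynomial.map_sum]

theorem fpoly_map {T : Type*} [CommRing T] (φ : S →+* T) (a : Par m → S) :
    (fpoly m a).map φ = fpoly m (fun q => φ (a q)) := by
  unfold fpoly
  rw [Polynomial.map_sub, Polynomial.map_prod, Polynomial.map_one]
  congr 1
  exact Finset.prod_congr rfl fun i _ => gpoly_map φ a i

variable [DecidableEq ι]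

theorem gpoly_update_ne (a : Par m → S) (i₀ i : ι) (hi : i ≠ i₀) (h0 : 0 < m i₀) (t : S) :
    gpoly m (Function.update a ⟨i₀, ⟨0, h0⟩⟩ t) i = gpoly m a i := by
  unfold gpoly
  congr 1
  refine Finset.sum_congr rfl fun k _ => ?_
  rw [Function.update_of_ne]
  rintro h
  exact hi (congrArg Sigma.fst h)

theorem gpoly_update_self (a : Par m → S) (i₀ : ι) (h0 : 0 < m i₀) (t : S) :
    gpoly m (Function.update a ⟨i₀, ⟨0, h0⟩⟩ t) i₀ =
      gpoly m a i₀ + C (t - a ⟨i₀, ⟨0, h0⟩⟩) := by
  unfold gpoly
  rw [add_assoc]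
  congr 1
  rw [← Finset.add_sum_erase _ _ (Finset.mem_univ (⟨0, h0⟩ : Fin (m i₀))),
    ← Finset.add_sum_erase _ (fun k : Fin (m i₀) => C (a ⟨i₀, k⟩) * X ^ (k : ℕ))
      (Finset.mem_univ (⟨0, h0⟩ : Fin (m i₀)))]
  have h1 : ∑ x ∈ Finset.univ.erase (⟨0, h0⟩ : Fin (m i₀)),
      C (Function.update a ⟨i₀, ⟨0, h0⟩⟩ t ⟨i₀, x⟩) * X ^ (x : ℕ) =
      ∑ x ∈ Finset.univ.erase (⟨0, h0⟩ : Fin (m i₀)), C (a ⟨i₀, x⟩) * X ^ (x : ℕ) := by
    refine Finset.sum_congr rfl fun k hk => ?_
    rw [Function.update_of_ne]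
    intro h
    have h2 := Finset.ne_of_mem_erase hk
    apply h2
    exact eq_of_heq (Sigma.mk.inj h).2
  rw [h1, Function.update_self, C_sub]
  simp only [pow_zero, mul_one]
  ring

end ring

section norm

variable {k : Type*} [NormedField k]

theorem continuous_eval_gpoly (i : ι) :
    Continuous fun z : (Par m → k) × k => (gpoly m z.1 i).eval z.2 := by
  unfold gpoly
  simp only [eval_add, eval_pow, eval_X, eval_finsetSum, eval_mul, eval_C]
  refine (continuous_snd.pow _).add (continuous_finsetSum _ fun j _ => ?_)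
  exact (((continuous_apply (⟨i, j⟩ : Par m)).comp continuous_fst)).mul (continuous_snd.pow _)

theorem eval_fpoly (a : Par m → k) (x : k) :
    (fpoly m a).eval x = ∏ i, (gpoly m a i).eval x - 1 := by
  unfold fpoly
  rw [eval_sub, eval_prod, eval_one]

theorem continuous_eval_fpoly :
    Continuous fun z : (Par m → k) × k => (fpoly m z.1).eval z.2 := by
  simp only [eval_fpoly]
  exact (continuous_finsetProd _ fun i _ => continuous_eval_gpoly i).sub continuous_const

/-- A value of a monic polynomial controls the distance to the nearest root. -/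
theorem exists_root_near {f : k[X]} (hf : f.Monic) (hsp : f.Splits) (hn : 0 < f.natDegree)
    (z : k) : ∃ w, f.eval w = 0 ∧ ‖z - w‖ ^ f.natDegree ≤ ‖f.eval z‖ := by
  classical
  have h1 := hsp.eq_prod_roots_of_monic hf
  have hcard : Multiset.card f.roots = f.natDegree := hsp.natDegree_eq_card_roots.symm
  have hne : f.roots ≠ 0 := by
    intro h
    rw [h, Multiset.card_zero] at hcard
    omega
  obtain ⟨w, hw, hmin⟩ : ∃ w ∈ f.roots, ∀ w' ∈ f.roots, ‖z - w‖ ≤ ‖z - w'‖ := by
    obtain ⟨w₀, hw₀⟩ := Multiset.exists_mem_of_ne_zero hne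
    obtain ⟨w, hw, hmin⟩ := Finset.exists_min_image f.roots.toFinset (fun w => ‖z - w‖)
      ⟨w₀, Multiset.mem_toFinset.2 hw₀⟩
    exact ⟨w, Multiset.mem_toFinset.1 hw, fun w' hw' => hmin w' (Multiset.mem_toFinset.2 hw')⟩
  refine ⟨w, (mem_roots hf.ne_zero).1 hw, ?_⟩
  have h2 : ‖f.eval z‖ = (f.roots.map fun w' => ‖z - w'‖).prod := by
    conv_lhs => rw [h1]
    rw [eval_multiset_prod, Multiset.map_map]
    have h3 : (f.roots.map ((eval z) ∘ fun a => X - C a)) = f.roots.map fun w' => z - w' := by
      refine Multiset.map_congr rfl fun w' _ => ?_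
      simp
    rw [h3]
    have h4 := map_multiset_prod (normHom : k →*₀ ℝ) (f.roots.map fun w' => z - w')
    rw [Multiset.map_map] at h4
    exact h4
  rw [h2, ← hcard]
  have h3 : ∀ s : Multiset k, (∀ w' ∈ s, ‖z - w‖ ≤ ‖z - w'‖) →
      ‖z - w‖ ^ Multiset.card s ≤ (s.map fun w' => ‖z - w'‖).prod := by
    intro s
    induction s using Multiset.induction with
    | empty => simp
    | cons a s ih =>
      intro h
      rw [Multiset.card_cons, pow_succ', Multiset.map_cons, Multiset.prod_cons]
      refine mul_le_mul (h a (Multiset.mem_cons_self a s))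
        (ih fun w' hw' => h w' (Multiset.mem_cons_of_mem hw')) (by positivity) (norm_nonneg _)
  exact h3 _ hmin

end norm

end Pool.Agent.Helper65_Dens
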