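import Pool.Agent.Helper65_Dens.UnitZp

/-!
# The parameters which are not good form a null set
-/

set_option autoImplicit false
set_option linter.unusedSectionVars false

open Polynomial Filter Topology NumberField MeasureTheory
open Pool.Agent.Helper85_Leo Pool.Agent.Helper65_Leo

namespace Pool.Agent.Helper65_Dens

variable {ι : Type} [Fintype ι] [DecidableEq ι] {m : ι → ℕ}

variable (p : ℕ) [hp : Fact p.Prime] (k : Type) [NontriviallyNormedField k]
  [NormedAlgebra ℚ_[p] k] [CompleteSpace k] [IsUltrametricDist k] [CharZero k] [IsAlgClosed k]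

/-- The images of the coefficients. -/
noncomputable def embPar (m : ι → ℕ) (a : Par m → ℤ_[p]) : Par m → k := fun q => emb p k (a q)

theorem continuous_embPar : Continuous (embPar p k m) :=
  continuous_pi fun q => (continuous_emb p k).comp (continuous_apply q)

theorem embPar_update (a : Par m → ℤ_[p]) (q : Par m) (t : ℤ_[p]) :
    embPar p k m (Function.update a q t) = Function.update (embPar p k m a) q (emb p k t) := by
  funext q'
  unfold embPar
  by_cases h : q' = q
  · subst h
    simp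
  · simp [Function.update_of_ne h]

theorem gpoly_embPar (a : Par m → ℤ_[p]) (i : ι) :
    gpoly m (embPar p k m a) i = (gpoly m a i).map (emb p k) := (gpoly_map _ _ _).symm

theorem fpoly_embPar (a : Par m → ℤ_[p]) :
    fpoly m (embPar p k m a) = (fpoly m a).map (emb p k) := (fpoly_map _ _).symm

/-- A uniform exponent for the units at the roots. -/
theorem exists_exponent (hn : 0 < ∑ i, m i) (a : Par m → ℤ_[p]) :
    ∃ e : ℕ, 0 < e ∧ ∀ x, (fpoly m (embPar p k m a)).eval x = 0 → ∀ i,
      ‖(gpoly m (embPar p k m a) i).eval x ^ e - 1‖ < 1 := by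
  classical
  set f := fpoly m (embPar p k m a) with hf
  have hfmon : f.Monic := fpoly_monic _ hn
  have hroot : ∀ x : f.roots.toFinset, f.eval (x : k) = 0 := by
    intro x
    exact (mem_roots hfmon.ne_zero).1 (Multiset.mem_toFinset.1 x.2)
  have hroot' : ∀ y : k, f.eval y = 0 → ((fpoly m a).map (emb p k)).eval y = 0 := by
    intro y hy
    rw [hf, fpoly_embPar] at hy
    exact hy
  obtain ⟨e, he, h⟩ := exists_common_pow (I := f.roots.toFinset × ι)
    (fun z => (gpoly m (embPar p k m a) z.2).eval (z.1 : k)) (by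
      rintro ⟨x, i⟩
      have hx := hroot' _ (hroot x)
      change ∃ e : ℕ, 0 < e ∧ ‖(gpoly m (embPar p k m a) i).eval (x : k) ^ e - 1‖ < 1
      rw [gpoly_embPar]
      refine exists_unit_pow_zp p (fpoly_monic a hn) hx _ ?_
      have hx1 := norm_root_le_one p (fpoly_monic a hn) hx
      have h1 : ∏ i, ((gpoly m a i).map (emb p k)).eval (x : k) = 1 := by
        rw [← eval_prod, ← Polynomial.map_prod]
        have h2 : ∏ i, gpoly m a i = fpoly m a + 1 := by unfold fpoly; ring
        rw [h2, Polynomial.map_add, eval_add, hx, zero_add, Polynomial.map_one, eval_one]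
      have h2 : ‖∏ i, ((gpoly m a i).map (emb p k)).eval (x : k)‖ = 1 := by rw [h1, norm_one]
      rw [norm_prod, ← Finset.mul_prod_erase _ _ (Finset.mem_univ i)] at h2
      have h3 := norm_eval_le_one p (gpoly m a i) hx1
      have h4 : ∏ j ∈ Finset.univ.erase i, ‖((gpoly m a j).map (emb p k)).eval (x : k)‖ ≤ 1 :=
        Finset.prod_le_one (fun _ _ => norm_nonneg _) fun j _ =>
          norm_eval_le_one p (gpoly m a j) hx1
      have h5 : 0 ≤ ‖((gpoly m a i).map (emb p k)).eval (x : k)‖ := norm_nonneg _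
      nlinarith)
  refine ⟨e, he, fun x hx i => ?_⟩
  exact h (⟨x, Multiset.mem_toFinset.2 ((mem_roots hfmon.ne_zero).2 hx)⟩, i)

/-- For fixed parameters in general position, all but finitely many values of the free parameter
are good. -/
theorem finite_not_good {i₀ : ι} (hm : ∀ i, 0 < m i) (a : Par m → ℤ_[p])
    (hgg : ∀ i l : {i // i ≠ i₀}, i ≠ l → ∀ x, (gpoly m (embPar p k m a) i).eval x = 0 →
      (gpoly m (embPar p k m a) l).eval x ≠ 0) :
    {t : ℤ_[p] | ¬ Good m i₀ (embPar p k m (Function.update a ⟨i₀, ⟨0, hm i₀⟩⟩ t))}.Finite := by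
  by_contra hinf
  obtain ⟨t₀, -, ht₀⟩ := Set.Infinite.exists_accPt_of_subset_isCompact
    (K := (Set.univ : Set ℤ_[p])) hinf isCompact_univ (Set.subset_univ _)
  have hn : 0 < ∑ i, m i := Finset.sum_pos (fun i _ => hm i) ⟨i₀, Finset.mem_univ _⟩
  obtain ⟨e, he, hunit⟩ := exists_exponent p k hn (Function.update a ⟨i₀, ⟨0, hm i₀⟩⟩ t₀)
  have h1 := good_near p (i₀ := i₀) hm (embPar p k m a) hgg (emb p k t₀) e he (by
    intro x hx i
    rw [← embPar_update] at hx
    have h2 := hunit x hx i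
    rwa [embPar_update, gpoly_update_ne _ i₀ i i.2 (hm i₀)] at h2)
  have htend : Tendsto (emb p k) (𝓝[≠] t₀) (𝓝[≠] (emb p k t₀)) := by
    rw [tendsto_nhdsWithin_iff]
    constructor
    · exact ((continuous_emb p k).tendsto t₀).mono_left nhdsWithin_le_nhds
    · filter_upwards [self_mem_nhdsWithin] with t ht
      intro h
      exact ht (emb_injective p k h)
  have h2 := htend.eventually h1
  have h3 : ∀ᶠ t in 𝓝[≠] t₀,
      t ∉ {t : ℤ_[p] | ¬ Good m i₀ (embPar p k m (Function.update a ⟨i₀, ⟨0, hm i₀⟩⟩ t))} := by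
    filter_upwards [h2] with t ht
    rw [← embPar_update] at ht
    intro h
    exact h ht
  rw [accPt_iff_frequently] at ht₀
  rw [eventually_nhdsWithin_iff] at h3
  apply ht₀
  filter_upwards [h3] with t ht
  rintro ⟨h4, h5⟩
  exact ht h4 h5

/-- The parameters for which two of the factors have a common root. -/
def Common (m : ι → ℕ) (i l : ι) : Set (Par m → ℤ_[p]) :=
  {a | ∃ x : k, (gpoly m (embPar p k m a) i).eval x = 0 ∧ (gpoly m (embPar p k m a) l).eval x = 0}

theorem norm_eval_sub_le (a b : Par m → k) (i : ι) {x : k} (hx : ‖x‖ ≤ 1) :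
    ‖(gpoly m a i).eval x - (gpoly m b i).eval x‖ ≤ dist a b := by
  have h1 : (gpoly m a i).eval x - (gpoly m b i).eval x =
      ∑ j : Fin (m i), (a ⟨i, j⟩ - b ⟨i, j⟩) * x ^ (j : ℕ) := by
    unfold gpoly
    simp only [eval_add, eval_pow, eval_X, eval_finsetSum, eval_mul, eval_C, sub_mul,
      Finset.sum_sub_distrib]
    ring
  rw [h1]
  refine IsUltrametricDist.norm_sum_le_of_forall_le_of_nonneg dist_nonneg fun j _ => ?_
  rw [norm_mul, norm_pow, ← dist_eq_norm]
  calc dist (a ⟨i, j⟩) (b ⟨i, j⟩) * ‖x‖ ^ (j : ℕ) ≤ dist a b * 1 :=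
        mul_le_mul (dist_le_pi_dist a b _) (pow_le_one₀ (norm_nonneg _) hx) (by positivity)
          dist_nonneg
    _ = dist a b := mul_one _

theorem isClosed_common (hm : ∀ i, 0 < m i) (i l : ι) : IsClosed (Common p k m i l) := by
  classical
  rw [← isOpen_compl_iff, isOpen_iff_mem_nhds]
  intro a ha
  set b := embPar p k m a with hb
  set g := gpoly m b i with hg
  have hgmon : g.Monic := gpoly_monic _ _
  have hgdeg : g.natDegree = m i := gpoly_natDegree _ _
  have hne : ∀ x : g.roots.toFinset, (gpoly m b l).eval (x : k) ≠ 0 := by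
    intro x h
    apply ha
    exact ⟨x, (mem_roots hgmon.ne_zero).1 (Multiset.mem_toFinset.1 x.2), h⟩
  have hloc : ∀ x : g.roots.toFinset, ∃ u ∈ 𝓝 b, ∃ ρ : ℝ, 0 < ρ ∧ ∀ b' ∈ u, ∀ y : k,
      dist y x < ρ → (gpoly m b' l).eval y ≠ 0 := by
    intro x
    have h1 := ((continuous_eval_gpoly (m := m) l).continuousAt (x := (b, (x : k)))).eventually_ne
      (hne x)
    obtain ⟨u, hu, v, hv, huv⟩ := mem_nhds_prod_iff.1 h1
    obtain ⟨ρ, hρ, hball⟩ := Metric.mem_nhds_iff.1 hv
    exact ⟨u, hu, ρ, hρ, fun b' hb' y hy => huv (Set.mk_mem_prod hb' (hball hy))⟩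
  choose u hu ρ hρ hloc using hloc
  obtain ⟨ρ₀, hρ₀, hρmin⟩ : ∃ ρ₀ : ℝ, 0 < ρ₀ ∧ ∀ x, ρ₀ ≤ ρ x := by
    rcases isEmpty_or_nonempty g.roots.toFinset with he | hne'
    · exact ⟨1, one_pos, fun x => (he.false x).elim⟩
    · obtain ⟨x₀, hx₀⟩ := Finite.exists_min ρ
      exact ⟨ρ x₀, hρ x₀, hx₀⟩
  have hev1 : ∀ᶠ a' in 𝓝 a, ∀ x, embPar p k m a' ∈ u x := by
    rw [eventually_all]
    intro x
    exact (continuous_embPar p k).continuousAt.eventually (hu x)
  have hev2 : ∀ᶠ a' in 𝓝 a, dist (embPar p k m a') b < ρ₀ ^ (m i) := by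
    have h1 : Tendsto (fun a' => dist (embPar p k m a') b) (𝓝 a) (𝓝 (dist b b)) :=
      ((continuous_embPar p k).tendsto a).dist tendsto_const_nhds
    rw [dist_self] at h1
    exact h1.eventually_lt_const (by positivity)
  filter_upwards [hev1, hev2] with a' ha1 ha2
  rintro ⟨y, hy1, hy2⟩
  have hyn : ‖y‖ ≤ 1 := by
    rw [gpoly_embPar] at hy1
    exact norm_root_le_one p (gpoly_monic a' i) hy1
  have h1 : ‖g.eval y‖ ≤ dist b (embPar p k m a') := by
    have h2 := norm_eval_sub_le k b (embPar p k m a') i hyn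
    rwa [hy1, sub_zero] at h2
  obtain ⟨w, hw1, hw2⟩ := exists_root_near hgmon (IsAlgClosed.splits _)
    (by rw [hgdeg]; exact hm i) y
  rw [hgdeg] at hw2
  have hwmem : w ∈ g.roots.toFinset := Multiset.mem_toFinset.2 ((mem_roots hgmon.ne_zero).2 hw1)
  have h3 : ‖y - w‖ < ρ₀ := by
    refine lt_of_pow_lt_pow_left₀ (m i) hρ₀.le ?_
    rw [dist_comm] at h1
    exact (hw2.trans h1).trans_lt ha2
  refine hloc ⟨w, hwmem⟩ _ (ha1 _) y ?_ hy2
  rw [dist_eq_norm]
  exact h3.trans_le (hρmin _)

theorem finite_section_common (hm : ∀ i, 0 < m i) {i l : ι} (hil : l ≠ i) (a : Par m → ℤ_[p]) :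
    {t : ℤ_[p] | Function.update a ⟨i, ⟨0, hm i⟩⟩ t ∈ Common p k m i l}.Finite := by
  classical
  set q : Par m := ⟨i, ⟨0, hm i⟩⟩ with hq
  set b := embPar p k m a with hb
  have hgmon : (gpoly m b l).Monic := gpoly_monic _ _
  have h1 : {t : ℤ_[p] | Function.update a q t ∈ Common p k m i l} ⊆
      (emb p k) ⁻¹' (((gpoly m b l).roots.toFinset.image
        fun x => b q - (gpoly m b i).eval x : Finset k) : Set k) := by
    rintro t ⟨x, hx1, hx2⟩
    rw [embPar_update, ← hb] at hx1 hx2
    rw [gpoly_update_ne b i l hil (hm i)] at hx2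
    rw [gpoly_update_self, eval_add, eval_C] at hx1
    rw [Set.mem_preimage, Finset.mem_coe, Finset.mem_image]
    refine ⟨x, Multiset.mem_toFinset.2 ((mem_roots hgmon.ne_zero).2 hx2), ?_⟩
    linear_combination -hx1
  exact ((Finset.finite_toSet _).preimage (emb_injective p k).injOn).subset h1

include p in
/-- Sections by updates and by translates. -/
theorem finite_translate {κ : Type} [DecidableEq κ] (Z : Set (κ → ℤ_[p])) (q : κ)
    (a : κ → ℤ_[p]) (h : {t : ℤ_[p] | Function.update a q t ∈ Z}.Finite) :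
    {t : ℤ_[p] | a + (AddMonoidHom.single (fun _ : κ => ℤ_[p]) q) t ∈ Z}.Finite := by
  have h1 : {t : ℤ_[p] | a + (AddMonoidHom.single (fun _ : κ => ℤ_[p]) q) t ∈ Z} =
      (fun t => a q + t) ⁻¹' {t : ℤ_[p] | Function.update a q t ∈ Z} := by
    ext t
    rw [Set.mem_preimage]
    have h2 : a + (AddMonoidHom.single (fun _ : κ => ℤ_[p]) q) t =
        Function.update a q (a q + t) := by
      funext q'
      by_cases h : q' = q
      · subst h
        simp
      · simp [Function.update_of_ne h, Pi.single_eq_of_ne h]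
    change a + (AddMonoidHom.single (fun _ : κ => ℤ_[p]) q) t ∈ Z ↔
      Function.update a q (a q + t) ∈ Z
    rw [h2]
  rw [h1]
  exact h.preimage (add_right_injective (a q)).injOn

include p in
theorem bnull_not_good (hm : ∀ i, 0 < m i) (i₀ : ι) :
    BNull {a : Par m → ℤ | ¬ Good m i₀ (fun q => (a q : k))} := by
  classical
  let mY : MeasurableSpace (Par m → ℤ_[p]) := borel _
  have hY : BorelSpace (Par m → ℤ_[p]) := ⟨rfl⟩
  let mT : MeasurableSpace ℤ_[p] := borel _
  have hT : BorelSpace ℤ_[p] := ⟨rfl⟩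
  have hsc : SecondCountableTopology ℤ_[p] := inferInstance
  have hne := neBot_zero p
  let μ : Measure (Par m → ℤ_[p]) := Measure.addHaar
  have hn : 0 < ∑ i, m i := Finset.sum_pos (fun i _ => hm i) ⟨i₀, Finset.mem_univ _⟩
  have hsingle : ∀ q : Par m, Continuous (AddMonoidHom.single (fun _ : Par m => ℤ_[p]) q) :=
    fun q => continuous_single (A := fun _ : Par m => ℤ_[p]) q
  have hcommon : ∀ i l : ι, l ≠ i → μ (Common p k m i l) = 0 := by
    intro i l hil
    refine null_of_sections μ (AddMonoidHom.single (fun _ : Par m => ℤ_[p]) ⟨i, ⟨0, hm i⟩⟩)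
      (hsingle _) _ (isClosed_common p k hm i l) ?_
    exact Eventually.of_forall fun a => finite_translate p _ _ a
      (finite_section_common p k hm hil a)
  set Z : Set (Par m → ℤ_[p]) := {a | ¬ Good m i₀ (embPar p k m a)} with hZ
  have hZc : IsClosed Z := by
    rw [← isOpen_compl_iff]
    have h1 : Zᶜ = (embPar p k m) ⁻¹' {a : Par m → k | Good m i₀ a} := by
      ext a
      simp [hZ]
    rw [h1]
    exact (isOpen_good p i₀ hn).preimage (continuous_embPar p k)
  have hZ0 : μ Z = 0 := by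
    refine null_of_sections μ (AddMonoidHom.single (fun _ : Par m => ℤ_[p]) ⟨i₀, ⟨0, hm i₀⟩⟩)
      (hsingle _) _ hZc ?_
    have h1 : ∀ᵐ a ∂μ, ∀ z : {z : ι × ι // z.2 ≠ z.1}, a ∉ Common p k m z.1.1 z.1.2 := by
      rw [ae_all_iff]
      intro z
      exact measure_eq_zero_iff_ae_notMem.1 (hcommon z.1.1 z.1.2 z.2)
    filter_upwards [h1] with a ha
    refine finite_translate p _ _ a ?_
    refine finite_not_good p k hm a fun i l hil x hx1 hx2 => ?_
    exact ha ⟨((i : ι), (l : ι)), fun h => hil (Subtype.ext h.symm)⟩ ⟨x, hx1, hx2⟩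
  refine (bnull_of_null p μ Z hZc hZ0).mono fun a ha => ?_
  change ¬ Good m i₀ (embPar p k m fun q => (a q : ℤ_[p]))
  have h1 : (embPar p k m fun q => (a q : ℤ_[p])) = fun q => (a q : k) := by
    funext q
    unfold embPar
    rw [map_intCast]
  rw [h1]
  exact ha

/-- The parameters for which Leopoldt's conjecture could fail although the unit rank is less than
the number of factors have density zero. -/
theorem bnull_not_leopoldt (hm : ∀ i, 0 < m i) [Nonempty ι] :
    BNull {a : Par m → ℤ | ∃ (K : Type) (_ : Field K) (_ : NumberField K) (θ : K),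
      IntermediateField.adjoin ℚ {θ} = ⊤ ∧ aeval θ (fpoly m a) = 0 ∧
      Module.finrank ℚ K = ∑ i, m i ∧ Units.rank K + 1 ≤ Fintype.card ι ∧
      ¬ LeopoldtAt K p} := by
  obtain ⟨i₀⟩ := (inferInstance : Nonempty ι)
  have hn : 0 < ∑ i, m i := Finset.sum_pos (fun i _ => hm i) ⟨i₀, Finset.mem_univ _⟩
  refine (bnull_not_good p ℂ_[p] hm i₀).mono ?_
  rintro a ⟨K, _, _, θ, h1, h2, h3, h4, h5⟩ hgood
  exact h5 (leopoldt_of_good p hn hgood K θ h1 h2 h3 h4)

end Pool.Agent.Helper65_Dens
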