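import Pool.Agent.Helper65_Dens.Bad
import Pool.Agent.Helper65_Dens.SepSig

/-!
# Density one for fields of every signature
-/

set_option autoImplicit false
set_option linter.unusedSectionVars false

open Polynomial Filter Topology NumberField
open Pool.Agent.Helper85_Leo Pool.Agent.Helper65_Leo

namespace Pool.Agent.Helper65_Dens

/-- Reindexing. -/
theorem BNull.reindex {κ κ' : Type} [Fintype κ] [DecidableEq κ] [Fintype κ'] [DecidableEq κ']
    (e : κ' ≃ κ) {B : Set (κ' → ℤ)} (hB : BNull B) : BNull {a : κ → ℤ | (fun q => a (e q)) ∈ B} := by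
  intro ε hε
  obtain ⟨N₀, h1⟩ := hB ε hε
  refine ⟨N₀, fun lo N hN => ?_⟩
  have h2 := h1 (fun q => lo (e q)) (fun q => N (e q)) fun q => hN (e q)
  have h3 : ∏ q, (N (e q) : ℝ) = ∏ q, (N q : ℝ) := Equiv.prod_comp e fun q => (N q : ℝ)
  rw [h3] at h2
  refine le_trans ?_ h2
  have hinj : Function.Injective fun (a : κ → ℤ) (q : κ') => a (e q) := by
    intro a b h
    funext q
    obtain ⟨q', rfl⟩ := e.surjective q
    exact congrFun h q'
  rw [← Set.ncard_image_of_injective _ hinj]
  have h4 : (fun (a : κ → ℤ) (q : κ') => a (e q)) ''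
      ({a | (∀ q, lo q ≤ a q ∧ a q < lo q + N q) ∧ a ∈ {a : κ → ℤ | (fun q => a (e q)) ∈ B}} :
        Set (κ → ℤ)) ⊆
      ({a | (∀ q, lo (e q) ≤ a q ∧ a q < lo (e q) + N (e q)) ∧ a ∈ B} : Set (κ' → ℤ)) := by
    rintro _ ⟨a, ⟨ha1, ha2⟩, rfl⟩
    exact ⟨fun q => ha1 (e q), ha2⟩
  exact_mod_cast Set.ncard_le_ncard h4 (box_inter_finite _ _ B)

variable {r₁ r₂ : ℕ}

/-- The index set of the parameters. -/
abbrev Ix (r₁ r₂ : ℕ) : Type := Fin r₁ ⊕ (Fin r₂ ⊕ Fin r₂)

/-- The degrees. -/
abbrev degs (r₁ r₂ : ℕ) : Fin r₁ ⊕ Fin r₂ → ℕ := Sum.elim (fun _ => 1) (fun _ => 2)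

/-- The product of the linear and the quadratic factors. -/
noncomputable def prodPoly (a : Ix r₁ r₂ → ℤ) : ℤ[X] :=
  (∏ i, (X + C (a (.inl i)))) *
    ∏ j, (X ^ 2 + C (a (.inr (.inl j))) * X + C (a (.inr (.inr j))))

/-- Correspondence of the index sets. -/
def ixMap : Par (degs r₁ r₂) → Ix r₁ r₂
  | ⟨.inl i, _⟩ => .inl i
  | ⟨.inr j, k⟩ => if k.val = 0 then .inr (.inr j) else .inr (.inl j)

theorem ixMap_bijective : Function.Bijective (ixMap (r₁ := r₁) (r₂ := r₂)) := by
  constructor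
  · rintro ⟨i | j, k⟩ ⟨i' | j', k'⟩ h
    · have h1 : i = i' := Sum.inl_injective h
      subst h1
      congr 1
      exact Subsingleton.elim (α := Fin 1) k k'
    · exfalso
      simp only [ixMap] at h
      split_ifs at h
    · exfalso
      simp only [ixMap] at h
      split_ifs at h
    · simp only [ixMap] at h
      have hk : k.val < 2 := k.2
      have hk' : k'.val < 2 := k'.2
      split_ifs at h with h1 h2 h2
      · have h3 : j = j' := by simpa using h
        subst h3
        congr 1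
        apply Fin.ext
        omega
      · simp at h
      · simp at h
      · have h3 : j = j' := by simpa using h
        subst h3
        congr 1
        apply Fin.ext
        omega
  · rintro (i | j | j)
    · exact ⟨⟨.inl i, (0 : Fin 1)⟩, rfl⟩
    · exact ⟨⟨.inr j, (1 : Fin 2)⟩, rfl⟩
    · exact ⟨⟨.inr j, (0 : Fin 2)⟩, rfl⟩

theorem prod_gpoly_ixMap (a : Ix r₁ r₂ → ℤ) :
    ∏ i, gpoly (degs r₁ r₂) (fun q => a (ixMap q)) i = prodPoly a := by
  rw [Fintype.prod_sum_type]
  unfold prodPoly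
  congr 1
  · refine Finset.prod_congr rfl fun i _ => ?_
    have h1 : gpoly (degs r₁ r₂) (fun q => a (ixMap q)) (Sum.inl i) =
        X ^ 1 + ∑ k : Fin 1, C (a (.inl i)) * X ^ (k : ℕ) := rfl
    rw [h1]
    simp
  · refine Finset.prod_congr rfl fun j _ => ?_
    have h1 : gpoly (degs r₁ r₂) (fun q => a (ixMap q)) (Sum.inr j) =
        X ^ 2 + ∑ k : Fin 2, C (a (if k.val = 0 then .inr (.inr j) else .inr (.inl j))) *
          X ^ (k : ℕ) := rfl
    rw [h1, Fin.sum_univ_two]
    simp
    ring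

/-- The index set of the roots. -/
abbrev Rt (r₁ r₂ : ℕ) : Type := Fin r₁ ⊕ (Fin r₂ × Bool)

/-- The roots. -/
noncomputable def rt (a : Ix r₁ r₂ → ℤ) : Rt r₁ r₂ → ℂ
  | .inl i => ⟨-(a (.inl i) : ℝ), 0⟩
  | .inr (j, s) => ⟨-(a (.inr (.inl j)) : ℝ) / 2, (if s then 1 else -1) *
      (Real.sqrt ((4 * a (.inr (.inr j)) - a (.inr (.inl j)) ^ 2 : ℤ) : ℝ) / 2)⟩

/-- The roots are well separated. -/
structure Sep (a : Ix r₁ r₂ → ℤ) : Prop where
  ll : ∀ i i', i ≠ i' → 6 ≤ |2 * a (.inl i) - 2 * a (.inl i')|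
  lq : ∀ i j, 6 ≤ |2 * a (.inl i) - a (.inr (.inl j))|
  qq : ∀ j j', j ≠ j' → 6 ≤ |a (.inr (.inl j)) - a (.inr (.inl j'))|
  disc : ∀ j, 9 ≤ 4 * a (.inr (.inr j)) - a (.inr (.inl j)) ^ 2

theorem norm_ge_of_re {z w : ℂ} {n : ℤ} (hn : 6 ≤ |n|) (h : z.re - w.re = n / 2) :
    3 ≤ ‖z - w‖ := by
  have h1 := Complex.abs_re_le_norm (z - w)
  rw [Complex.sub_re, h, abs_div] at h1
  have h2 : (6 : ℝ) ≤ |(n : ℝ)| := by exact_mod_cast hn
  have h3 : |(2 : ℝ)| = 2 := abs_of_pos two_pos
  rw [h3] at h1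
  linarith

theorem Sep.norm_sub {a : Ix r₁ r₂ → ℤ} (h : Sep a) (o o' : Rt r₁ r₂) (hne : o ≠ o') :
    3 ≤ ‖rt a o - rt a o'‖ := by
  rcases o with i | ⟨j, s⟩ <;> rcases o' with i' | ⟨j', s'⟩
  · refine norm_ge_of_re (n := -(2 * a (.inl i) - 2 * a (.inl i'))) ?_ ?_
    · rw [abs_neg]
      exact h.ll i i' fun h' => hne (by rw [h'])
    · simp only [rt]
      push_cast
      ring
  · refine norm_ge_of_re (n := -(2 * a (.inl i) - a (.inr (.inl j')))) ?_ ?_
    · rw [abs_neg]
      exact h.lq i j'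
    · simp only [rt]
      push_cast
      ring
  · refine norm_ge_of_re (n := (2 * a (.inl i') - a (.inr (.inl j)))) ?_ ?_
    · exact h.lq i' j
    · simp only [rt]
      push_cast
      ring
  · by_cases hj : j = j'
    · subst hj
      have hs : s ≠ s' := fun h' => hne (by rw [h'])
      have h1 := Complex.abs_im_le_norm (rt a (.inr (j, s)) - rt a (.inr (j, s')))
      have h2 : (9 : ℝ) ≤ ((4 * a (.inr (.inr j)) - a (.inr (.inl j)) ^ 2 : ℤ) : ℝ) := by
        exact_mod_cast h.disc j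
      have h3 : (3 : ℝ) ≤ Real.sqrt ((4 * a (.inr (.inr j)) - a (.inr (.inl j)) ^ 2 : ℤ) : ℝ) := by
        apply Real.le_sqrt_of_sq_le
        linarith
      refine le_trans h3 (le_trans ?_ h1)
      rw [Complex.sub_im]
      simp only [rt]
      set x := Real.sqrt ((4 * a (.inr (.inr j)) - a (.inr (.inl j)) ^ 2 : ℤ) : ℝ)
      cases s <;> cases s'
      · exact absurd rfl hs
      · simp only [if_true, Bool.false_eq_true, if_false]
        rw [← abs_neg]
        refine le_trans (le_of_eq ?_) (le_abs_self _)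
        ring
      · simp only [if_true, Bool.false_eq_true, if_false]
        refine le_trans (le_of_eq ?_) (le_abs_self _)
        ring
      · exact absurd rfl hs
    · refine norm_ge_of_re (n := -(a (.inr (.inl j)) - a (.inr (.inl j')))) ?_ ?_
      · rw [abs_neg]
        exact h.qq j j' hj
      · simp only [rt]
        push_cast
        ring

theorem rt_quadratic {a : Ix r₁ r₂ → ℤ} (h : Sep a) (j : Fin r₂) :
    (X ^ 2 + C (a (.inr (.inl j))) * X + C (a (.inr (.inr j))) : ℤ[X]).map (Int.castRingHom ℂ) =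
      (X - C (rt a (.inr (j, true)))) * (X - C (rt a (.inr (j, false)))) := by
  have hcast : ∀ z : ℤ, (Int.castRingHom ℂ) z = z := fun _ => rfl
  have hsum : rt a (.inr (j, true)) + rt a (.inr (j, false)) = -(a (.inr (.inl j)) : ℂ) := by
    apply Complex.ext
    · simp only [rt, Complex.add_re, Complex.neg_re, Complex.intCast_re]
      ring
    · simp only [rt, Complex.add_im, Complex.neg_im, Complex.intCast_im, if_true,
        Bool.false_eq_true, if_false]
      ring
  have hprod : rt a (.inr (j, true)) * rt a (.inr (j, false)) = (a (.inr (.inr j)) : ℂ) := by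
    have hsq : Real.sqrt ((4 * a (.inr (.inr j)) - a (.inr (.inl j)) ^ 2 : ℤ) : ℝ) ^ 2 =
        ((4 * a (.inr (.inr j)) - a (.inr (.inl j)) ^ 2 : ℤ) : ℝ) := by
      rw [Real.sq_sqrt]
      have := h.disc j
      have h1 : (0 : ℤ) ≤ 4 * a (.inr (.inr j)) - a (.inr (.inl j)) ^ 2 := by omega
      exact_mod_cast h1
    apply Complex.ext
    · simp only [rt, Complex.mul_re, Complex.intCast_re, if_true, Bool.false_eq_true, if_false]
      push_cast at hsq ⊢
      linear_combination hsq / 4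
    · simp only [rt, Complex.mul_im, Complex.intCast_im, if_true, Bool.false_eq_true, if_false]
      ring
  simp only [Polynomial.map_add, Polynomial.map_pow, map_X, Polynomial.map_mul, map_C, hcast]
  have h1 : (C (a (.inr (.inl j)) : ℂ) : ℂ[X]) =
      -(C (rt a (.inr (j, true))) + C (rt a (.inr (j, false)))) := by
    rw [← C_add, hsum, C_neg, neg_neg]
  have h2 : (C (a (.inr (.inr j)) : ℂ) : ℂ[X]) =
      C (rt a (.inr (j, true))) * C (rt a (.inr (j, false))) := by
    rw [← C_mul, hprod]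
  rw [h1, h2]
  ring

theorem Sep.map_eq {a : Ix r₁ r₂ → ℤ} (h : Sep a) :
    (prodPoly a).map (Int.castRingHom ℂ) = ∏ o, (X - C (rt a o)) := by
  unfold prodPoly
  rw [Polynomial.map_mul, Polynomial.map_prod, Polynomial.map_prod, Fintype.prod_sum_type]
  congr 1
  · refine Finset.prod_congr rfl fun i _ => ?_
    rw [Polynomial.map_add, map_X, map_C]
    have h1 : rt a (.inl i) = -(a (.inl i) : ℂ) := by
      apply Complex.ext <;> simp [rt]
    rw [h1, C_neg, sub_neg_eq_add]
    rfl
  · rw [Fintype.prod_prod_type]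
    refine Finset.prod_congr rfl fun j _ => ?_
    rw [rt_quadratic h j, Fintype.prod_bool]

/-- Complex conjugation on the roots. -/
def conjIx : Rt r₁ r₂ → Rt r₁ r₂
  | .inl i => .inl i
  | .inr (j, s) => .inr (j, !s)

theorem conj_rt (a : Ix r₁ r₂ → ℤ) (o : Rt r₁ r₂) :
    (starRingEnd ℂ) (rt a o) = rt a (conjIx o) := by
  rcases o with i | ⟨j, s⟩
  · apply Complex.ext <;> simp [rt, conjIx]
  · apply Complex.ext
    · simp [rt, conjIx]
    · cases s <;> simp [rt, conjIx]

theorem card_conjIx [Fintype {o : Rt r₁ r₂ // conjIx o = o}] :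
    Fintype.card {o : Rt r₁ r₂ // conjIx o = o} = r₁ := by
  classical
  have h1 : Fintype.card {o : Rt r₁ r₂ // conjIx o = o} = Fintype.card (Fin r₁) := by
    refine Fintype.card_congr (Equiv.ofBijective (fun i : Fin r₁ =>
      (⟨Sum.inl i, rfl⟩ : {o : Rt r₁ r₂ // conjIx o = o})) ⟨?_, ?_⟩).symm
    · intro i i' h
      exact Sum.inl_injective (congrArg Subtype.val h)
    · rintro ⟨i | ⟨j, s⟩, h⟩
      · exact ⟨i, rfl⟩
      · exfalso
        have h2 := Sum.inr_injective h
        have h3 : (!s) = s := (Prod.mk.inj h2).2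
        cases s <;> simp at h3
  rw [h1, Fintype.card_fin]

theorem card_rt : Fintype.card (Rt r₁ r₂) = r₁ + 2 * r₂ := by
  simp [Fintype.card_sum, Fintype.card_prod]
  ring

theorem prodPoly_monic (a : Ix r₁ r₂ → ℤ) : (prodPoly a).Monic := by
  rw [← prod_gpoly_ixMap]
  exact prod_gpoly_monic _ _

theorem Sep.irreducible {a : Ix r₁ r₂ → ℤ} (h : Sep a) (hpos : 0 < r₁ + 2 * r₂) :
    Irreducible ((prodPoly a - 1).map (Int.castRingHom ℚ)) := by
  refine irreducible_of_pairs (prodPoly_monic a) (rt a) h.map_eq (by rw [card_rt]; exact hpos)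
    ?_ ?_
  · intro o o' hoo
    by_contra hne
    have h1 := h.norm_sub o o' hne
    rw [hoo, sub_self, norm_zero] at h1
    linarith
  · intro u v o huv
    rcases o with i | ⟨j, s⟩
    · -- a rational integer
      have hw : rt a (.inl i) = ((-(a (.inl i)) : ℤ) : ℂ) := by
        apply Complex.ext <;> simp [rt]
      have hev : ∀ q : ℤ[X], (q.map (Int.castRingHom ℂ)).eval (rt a (.inl i)) =
          ((q.eval (-(a (.inl i))) : ℤ) : ℂ) := by
        intro q
        rw [hw, eval_map]
        exact eval₂_at_apply (Int.castRingHom ℂ) (-(a (.inl i)))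
      rw [hev, hev] at huv ⊢
      have h1 : u.eval (-(a (.inl i))) * v.eval (-(a (.inl i))) = -1 := by exact_mod_cast huv
      have h2 : v.eval (-(a (.inl i))) = -u.eval (-(a (.inl i))) := by
        have h3 : IsUnit (u.eval (-(a (.inl i)))) :=
          IsUnit.of_mul_eq_one (-v.eval (-(a (.inl i)))) (by linear_combination -h1)
        rcases Int.isUnit_iff.1 h3 with h4 | h4
        · rw [h4] at h1 ⊢; omega
        · rw [h4] at h1 ⊢; omega
      rw [h2]
      push_cast
      ring
    · refine quadratic_unit u v (a (.inr (.inl j))) (a (.inr (.inr j)))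
        (by have := h.disc j; omega) (rt a (.inr (j, s))) ?_ ?_ ?_ huv
      · simp [rt]
      · have hsq : Real.sqrt ((4 * a (.inr (.inr j)) - a (.inr (.inl j)) ^ 2 : ℤ) : ℝ) ^ 2 =
            ((4 * a (.inr (.inr j)) - a (.inr (.inl j)) ^ 2 : ℤ) : ℝ) := by
          rw [Real.sq_sqrt]
          have := h.disc j
          have h1 : (0 : ℤ) ≤ 4 * a (.inr (.inr j)) - a (.inr (.inl j)) ^ 2 := by omega
          exact_mod_cast h1
        simp only [rt]
        cases s
        · simp only [Bool.false_eq_true, if_false]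
          linear_combination hsq / 4
        · simp only [if_true]
          linear_combination hsq / 4
      · have h1 := congrArg (eval (rt a (.inr (j, s)))) (rt_quadratic h j)
        have hcast : ∀ z : ℤ, (Int.castRingHom ℂ) z = z := fun _ => rfl
        simp only [Polynomial.map_add, Polynomial.map_pow, map_X, Polynomial.map_mul, map_C,
          hcast, eval_add, eval_pow, eval_X, eval_mul, eval_C, eval_sub] at h1
        rw [h1]
        cases s <;> simp

/-- The signature. -/
theorem Sep.signature {a : Ix r₁ r₂ → ℤ} (h : Sep a) (hpos : 0 < r₁ + 2 * r₂) (K : Type)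
    [Field K] [NumberField K] (θ : K) (hgen : IntermediateField.adjoin ℚ {θ} = ⊤)
    (hroot : aeval θ (prodPoly a - 1) = 0) :
    Module.finrank ℚ K = r₁ + 2 * r₂ ∧ InfinitePlace.nrRealPlaces K = r₁ ∧
      InfinitePlace.nrComplexPlaces K = r₂ ∧ Units.rank K + 1 = r₁ + r₂ := by
  classical
  have hdeg : (prodPoly a).natDegree = r₁ + 2 * r₂ := by
    rw [← natDegree_map_int (F := ℂ), h.map_eq, natDegree_prod_of_monic _ _
      fun o _ => monic_X_sub_C _]
    simp only [natDegree_X_sub_C, Finset.sum_const, Finset.card_univ, smul_eq_mul, mul_one]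
    exact card_rt
  have hmon : (prodPoly a - 1).Monic := by
    refine (prodPoly_monic a).sub_of_left ?_
    rw [degree_one, degree_eq_natDegree (prodPoly_monic a).ne_zero, hdeg]
    exact_mod_cast hpos
  have hfdeg : (prodPoly a - 1).natDegree = r₁ + 2 * r₂ := by
    rw [natDegree_sub_eq_left_of_natDegree_lt, hdeg]
    rw [natDegree_one, hdeg]
    exact hpos
  have hfin : Module.finrank ℚ K = r₁ + 2 * r₂ := by
    rw [finrank_of_irreducible hgen hmon (h.irreducible hpos) hroot, hfdeg]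
  have hreal := nrRealPlaces_of_sep (rt a) h.map_eq (by rw [card_rt]; exact hpos) h.norm_sub
    conjIx (conj_rt a) hgen hroot (by rw [hfin, card_rt])
  rw [card_conjIx] at hreal
  have h4 := InfinitePlace.card_add_two_mul_card_eq_rank K
  have h5 := InfinitePlace.card_eq_nrRealPlaces_add_nrComplexPlaces K
  have h6 : InfinitePlace.nrComplexPlaces K = r₂ := by omega
  refine ⟨hfin, hreal, h6, ?_⟩
  rw [Units.rank, h5, hreal, h6]
  omega

theorem card_le_of_subset_Icc {s : Finset ℤ} {l : ℤ} {n : ℕ} (h : ∀ t ∈ s, l ≤ t ∧ t < l + n) :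
    s.card ≤ n := by
  have h1 : s ⊆ Finset.Ico l (l + n) := fun t ht => Finset.mem_Ico.2 (h t ht)
  have h2 := Finset.card_le_card h1
  rw [Int.card_Ico] at h2
  simpa using h2

/-- Most parameters with definite quadratic factors are well separated. -/
theorem bnull_not_sep : BNull {a : Ix r₁ r₂ → ℤ |
    (∀ j, a (.inr (.inl j)) ^ 2 < 4 * a (.inr (.inr j))) ∧ ¬ Sep a} := by
  have b1 : BNull (⋃ z : {z : Fin r₁ × Fin r₁ // z.1 ≠ z.2}, {a : Ix r₁ r₂ → ℤ |
      |2 * a (.inl z.1.1) - 2 * a (.inl z.1.2)| < 6}) := by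
    refine bnull_iUnion _ fun z => bnull_of_section _ (.inl z.1.1) 6 fun a s hs => ?_
    refine card_le_of_subset_Icc (l := a (.inl z.1.2) - 3) fun t ht => ?_
    have h1 := hs t ht
    have h2 : (Sum.inl z.1.2 : Ix r₁ r₂) ≠ Sum.inl z.1.1 := fun h => z.2 (Sum.inl_injective h).symm
    change |2 * Function.update a (.inl z.1.1) t (.inl z.1.1) -
      2 * Function.update a (.inl z.1.1) t (.inl z.1.2)| < 6 at h1
    rw [Function.update_self, Function.update_of_ne h2, abs_lt] at h1
    push_cast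
    omega
  have b2 : BNull (⋃ z : Fin r₁ × Fin r₂, {a : Ix r₁ r₂ → ℤ |
      |2 * a (.inl z.1) - a (.inr (.inl z.2))| < 6}) := by
    refine bnull_iUnion _ fun z => bnull_of_section _ (.inr (.inl z.2)) 12 fun a s hs => ?_
    refine card_le_of_subset_Icc (l := 2 * a (.inl z.1) - 6) fun t ht => ?_
    have h1 := hs t ht
    have h2 : (Sum.inl z.1 : Ix r₁ r₂) ≠ Sum.inr (.inl z.2) := by simp
    change |2 * Function.update a (.inr (.inl z.2)) t (.inl z.1) -
      Function.update a (.inr (.inl z.2)) t (.inr (.inl z.2))| < 6 at h1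
    rw [Function.update_self, Function.update_of_ne h2, abs_lt] at h1
    push_cast
    omega
  have b3 : BNull (⋃ z : {z : Fin r₂ × Fin r₂ // z.1 ≠ z.2}, {a : Ix r₁ r₂ → ℤ |
      |a (.inr (.inl z.1.1)) - a (.inr (.inl z.1.2))| < 6}) := by
    refine bnull_iUnion _ fun z => bnull_of_section _ (.inr (.inl z.1.1)) 12 fun a s hs => ?_
    refine card_le_of_subset_Icc (l := a (.inr (.inl z.1.2)) - 6) fun t ht => ?_
    have h1 := hs t ht
    have h2 : (Sum.inr (.inl z.1.2) : Ix r₁ r₂) ≠ Sum.inr (.inl z.1.1) := by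
      intro h
      exact z.2 (Sum.inl_injective (Sum.inr_injective h)).symm
    change |Function.update a (.inr (.inl z.1.1)) t (.inr (.inl z.1.1)) -
      Function.update a (.inr (.inl z.1.1)) t (.inr (.inl z.1.2))| < 6 at h1
    rw [Function.update_self, Function.update_of_ne h2, abs_lt] at h1
    push_cast
    omega
  have b4 : BNull (⋃ j : Fin r₂, {a : Ix r₁ r₂ → ℤ | a (.inr (.inl j)) ^ 2 < 4 * a (.inr (.inr j)) ∧
      4 * a (.inr (.inr j)) - a (.inr (.inl j)) ^ 2 < 9}) := by
    refine bnull_iUnion _ fun j => bnull_of_section _ (.inr (.inr j)) 4 fun a s hs => ?_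
    refine card_le_of_subset_Icc (l := a (.inr (.inl j)) ^ 2 / 4) fun t ht => ?_
    obtain ⟨h1, h1'⟩ := hs t ht
    have h2 : (Sum.inr (.inl j) : Ix r₁ r₂) ≠ Sum.inr (.inr j) := by simp
    rw [Function.update_self, Function.update_of_ne h2] at h1 h1'
    push_cast
    omega
  refine (((b1.union b2).union b3).union b4).mono ?_
  rintro a ⟨hdisc, hsep⟩
  by_contra hcon
  simp only [Set.mem_union, not_or, Set.mem_iUnion, not_exists] at hcon
  obtain ⟨⟨⟨c1, c2⟩, c3⟩, c4⟩ := hcon
  apply hsep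
  refine ⟨fun i i' hne => ?_, fun i j => ?_, fun j j' hne => ?_, fun j => ?_⟩
  · exact not_lt.1 fun h => c1 ⟨(i, i'), hne⟩ h
  · exact not_lt.1 fun h => c2 (i, j) h
  · exact not_lt.1 fun h => c3 ⟨(j, j'), hne⟩ h
  · exact not_lt.1 fun h => c4 j ⟨hdisc j, h⟩

/-- **Density one.** -/
theorem density_one (p : ℕ) [hp : Fact p.Prime] (hpos : 0 < r₁ + r₂) :
    BNull {a : Ix r₁ r₂ → ℤ | (∀ j, a (.inr (.inl j)) ^ 2 < 4 * a (.inr (.inr j))) ∧
      ¬ (Irreducible ((prodPoly a - 1).map (Int.castRingHom ℚ)) ∧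
        ∀ (K : Type) [Field K] [NumberField K] (θ : K),
          IntermediateField.adjoin ℚ {θ} = ⊤ → aeval θ (prodPoly a - 1) = 0 →
          InfinitePlace.nrRealPlaces K = r₁ ∧ InfinitePlace.nrComplexPlaces K = r₂ ∧
          LeopoldtAt K p)} := by
  classical
  have hne : Nonempty (Fin r₁ ⊕ Fin r₂) := by
    rcases Nat.eq_zero_or_pos r₁ with h | h
    · exact ⟨.inr ⟨0, by omega⟩⟩
    · exact ⟨.inl ⟨0, h⟩⟩
  have hm : ∀ i, 0 < degs r₁ r₂ i := by
    rintro (i | j)
    · exact one_pos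
    · exact two_pos
  have h1 := (bnull_not_leopoldt p hm).reindex (Equiv.ofBijective _ ixMap_bijective)
  refine (bnull_not_sep.union h1).mono ?_
  rintro a ⟨hdisc, hbad⟩
  by_contra hcon
  rw [Set.mem_union, not_or] at hcon
  obtain ⟨c1, c2⟩ := hcon
  have hsep : Sep a := by
    by_contra h
    exact c1 ⟨hdisc, h⟩
  have hpos' : 0 < r₁ + 2 * r₂ := by omega
  apply hbad
  refine ⟨hsep.irreducible hpos', fun K _ _ θ hgen hroot => ?_⟩
  obtain ⟨s1, s2, s3, s4⟩ := hsep.signature hpos' K θ hgen hroot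
  refine ⟨s2, s3, ?_⟩
  by_contra hL
  apply c2
  refine ⟨K, inferInstance, inferInstance, θ, hgen, ?_, ?_, ?_, hL⟩
  · have h2 : fpoly (degs r₁ r₂) (fun q => a (Equiv.ofBijective _ ixMap_bijective q)) =
        prodPoly a - 1 := by
      unfold fpoly
      rw [← prod_gpoly_ixMap]
      rfl
    rw [h2]
    exact hroot
  · rw [s1, Fintype.sum_sum_type]
    simp
    ring
  · rw [s4]
    simp

end Pool.Agent.Helper65_Dens
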