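import Pool.Agent.Helper65_Dens.Haar

/-!
# Counting integer points in boxes
-/

set_option autoImplicit false
set_option linter.unusedSectionVars false

open MeasureTheory Filter Topology

namespace Pool.Agent.Helper65_Dens

variable {κ : Type} [Fintype κ] [DecidableEq κ]

/-- The box with corner `lo` and side lengths `N`. -/
noncomputable def box (lo : κ → ℤ) (N : κ → ℕ) : Finset (κ → ℤ) :=
  Fintype.piFinset fun q => Finset.Ico (lo q) (lo q + N q)

theorem mem_box {lo : κ → ℤ} {N : κ → ℕ} {a : κ → ℤ} :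
    a ∈ box lo N ↔ ∀ q, lo q ≤ a q ∧ a q < lo q + N q := by
  unfold box
  rw [Fintype.mem_piFinset]
  simp only [Finset.mem_Ico]

/-- A set of integer vectors whose proportion in all boxes with long sides is small. -/
def BNull (B : Set (κ → ℤ)) : Prop :=
  ∀ ε : ℝ, 0 < ε → ∃ N₀ : ℕ, ∀ (lo : κ → ℤ) (N : κ → ℕ), (∀ q, N₀ ≤ N q) →
    (({a | (∀ q, lo q ≤ a q ∧ a q < lo q + N q) ∧ a ∈ B} : Set (κ → ℤ)).ncard : ℝ) ≤
      ε * ∏ q, (N q : ℝ)

theorem box_inter_finite (lo : κ → ℤ) (N : κ → ℕ) (B : Set (κ → ℤ)) :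
    ({a | (∀ q, lo q ≤ a q ∧ a q < lo q + N q) ∧ a ∈ B} : Set (κ → ℤ)).Finite :=
  (box lo N).finite_toSet.subset fun _ ha => mem_box.2 ha.1

theorem BNull.mono {A B : Set (κ → ℤ)} (hB : BNull B) (h : A ⊆ B) : BNull A := by
  intro ε hε
  obtain ⟨N₀, h1⟩ := hB ε hε
  refine ⟨N₀, fun lo N hN => le_trans ?_ (h1 lo N hN)⟩
  have h2 : ({a | (∀ q, lo q ≤ a q ∧ a q < lo q + N q) ∧ a ∈ A} : Set (κ → ℤ)) ⊆
      {a | (∀ q, lo q ≤ a q ∧ a q < lo q + N q) ∧ a ∈ B} := fun a ha => ⟨ha.1, h ha.2⟩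
  exact_mod_cast Set.ncard_le_ncard h2 (box_inter_finite lo N B)

theorem BNull.union {A B : Set (κ → ℤ)} (hA : BNull A) (hB : BNull B) : BNull (A ∪ B) := by
  intro ε hε
  obtain ⟨N₁, h1⟩ := hA (ε / 2) (by positivity)
  obtain ⟨N₂, h2⟩ := hB (ε / 2) (by positivity)
  refine ⟨max N₁ N₂, fun lo N hN => ?_⟩
  have h3 := h1 lo N fun q => (le_max_left _ _).trans (hN q)
  have h4 := h2 lo N fun q => (le_max_right _ _).trans (hN q)
  have h5 : ({a | (∀ q, lo q ≤ a q ∧ a q < lo q + N q) ∧ a ∈ A ∪ B} : Set (κ → ℤ)) =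
      {a | (∀ q, lo q ≤ a q ∧ a q < lo q + N q) ∧ a ∈ A} ∪
      {a | (∀ q, lo q ≤ a q ∧ a q < lo q + N q) ∧ a ∈ B} := by
    ext a
    simp only [Set.mem_union]
    constructor
    · rintro ⟨h6, h7 | h7⟩
      · exact Or.inl ⟨h6, h7⟩
      · exact Or.inr ⟨h6, h7⟩
    · rintro (⟨h6, h7⟩ | ⟨h6, h7⟩)
      · exact ⟨h6, Or.inl h7⟩
      · exact ⟨h6, Or.inr h7⟩
  rw [h5]
  have h6 : ((({a | (∀ q, lo q ≤ a q ∧ a q < lo q + N q) ∧ a ∈ A} ∪
      {a | (∀ q, lo q ≤ a q ∧ a q < lo q + N q) ∧ a ∈ B}) : Set (κ → ℤ)).ncard : ℝ) ≤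
      ({a | (∀ q, lo q ≤ a q ∧ a q < lo q + N q) ∧ a ∈ A} : Set (κ → ℤ)).ncard +
      ({a | (∀ q, lo q ≤ a q ∧ a q < lo q + N q) ∧ a ∈ B} : Set (κ → ℤ)).ncard := by
    exact_mod_cast Set.ncard_union_le _ _
  linarith

theorem bnull_empty : BNull (∅ : Set (κ → ℤ)) := by
  intro ε hε
  refine ⟨0, fun lo N _ => ?_⟩
  have : ({a | (∀ q, lo q ≤ a q ∧ a q < lo q + N q) ∧ a ∈ (∅ : Set (κ → ℤ))} :
      Set (κ → ℤ)) = ∅ := by
    ext a
    simp
  rw [this, Set.ncard_empty, Nat.cast_zero]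
  exact mul_nonneg hε.le (Finset.prod_nonneg fun _ _ => Nat.cast_nonneg _)

theorem bnull_iUnion {I : Type} [Finite I] (B : I → Set (κ → ℤ)) (h : ∀ i, BNull (B i)) :
    BNull (⋃ i, B i) := by
  classical
  have := Fintype.ofFinite I
  have h1 : ∀ s : Finset I, BNull (⋃ i ∈ s, B i) := by
    intro s
    induction s using Finset.induction with
    | empty => simpa using bnull_empty
    | insert i s _ ih =>
      rw [Finset.set_biUnion_insert]
      exact (h i).union ih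
  have h2 := h1 Finset.univ
  simpa using h2

/-- Sets with sections of bounded size in one coordinate direction. -/
theorem bnull_of_section (B : Set (κ → ℤ)) (q₀ : κ) (c : ℕ)
    (h : ∀ (a : κ → ℤ) (s : Finset ℤ), (∀ t ∈ s, Function.update a q₀ t ∈ B) → s.card ≤ c) :
    BNull B := by
  classical
  intro ε hε
  obtain ⟨n, hn⟩ := exists_nat_gt (c / ε)
  refine ⟨n, fun lo N hN => ?_⟩
  set S : Set (κ → ℤ) := {a | (∀ q, lo q ≤ a q ∧ a q < lo q + N q) ∧ a ∈ B} with hS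
  have hfin : S.Finite := box_inter_finite lo N B
  -- the projection along `q₀`
  let N' : κ → ℕ := Function.update N q₀ 1
  let f : (κ → ℤ) → (κ → ℤ) := fun a => Function.update a q₀ (lo q₀)
  have hmaps : ∀ a ∈ hfin.toFinset, f a ∈ box lo N' := by
    intro a ha
    rw [Set.Finite.mem_toFinset] at ha
    rw [mem_box]
    intro q
    by_cases hq : q = q₀
    · subst hq
      simp [f, N']
    · simp only [f, N', Function.update_of_ne hq]
      exact ha.1 q
  have hcount := Finset.card_le_mul_card_image_of_maps_to hmaps c (by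
    intro b hb
    rw [← Finset.card_image_of_injOn (f := fun a : κ → ℤ => a q₀)]
    · apply h b
      intro t ht
      rw [Finset.mem_image] at ht
      obtain ⟨a, ha, rfl⟩ := ht
      rw [Finset.mem_filter, Set.Finite.mem_toFinset] at ha
      have h1 : Function.update b q₀ (a q₀) = a := by
        rw [← ha.2]
        funext q
        by_cases hq : q = q₀
        · subst hq; simp
        · simp [f, Function.update_of_ne hq]
      rw [h1]
      exact ha.1.2
    · intro a ha a' ha' haa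
      rw [Finset.mem_coe, Finset.mem_filter] at ha ha'
      funext q
      by_cases hq : q = q₀
      · subst hq; exact haa
      · have h1 := congrFun (ha.2.trans ha'.2.symm) q
        simpa [f, Function.update_of_ne hq] using h1)
  have hcard : (box lo N').card = ∏ q ∈ Finset.univ.erase q₀, N q := by
    unfold box
    rw [Fintype.card_piFinset, ← Finset.mul_prod_erase _ _ (Finset.mem_univ q₀)]
    simp only [N', Function.update_self, Int.card_Ico]
    have h1 : ∀ q ∈ Finset.univ.erase q₀, (lo q + (Function.update N q₀ 1 q : ℕ) - lo q).toNat =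
        N q := by
      intro q hq
      rw [Function.update_of_ne (Finset.ne_of_mem_erase hq)]
      simp
    rw [Finset.prod_congr rfl h1]
    simp
  have hncard : S.ncard = hfin.toFinset.card := Set.ncard_eq_toFinset_card S hfin
  rw [hncard]
  have h2 : (hfin.toFinset.card : ℝ) ≤ c * ∏ q ∈ Finset.univ.erase q₀, (N q : ℝ) := by
    rw [hcard] at hcount
    exact_mod_cast hcount
  refine h2.trans ?_
  rw [← Finset.mul_prod_erase _ (fun q => (N q : ℝ)) (Finset.mem_univ q₀), ← mul_assoc]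
  refine mul_le_mul_of_nonneg_right ?_ (Finset.prod_nonneg fun _ _ => Nat.cast_nonneg _)
  have h3 : (n : ℝ) ≤ N q₀ := by exact_mod_cast hN q₀
  rw [div_lt_iff₀ hε] at hn
  nlinarith

/-- Integers of an interval in a residue class. -/
theorem count_class (r : ℕ) (hr : 0 < r) (lo : ℤ) (N : ℕ) (c : ZMod r) :
    (((Finset.Ico lo (lo + N)).filter fun x : ℤ => (x : ZMod r) = c).card : ℝ) ≤ N / r + 1 := by
  have : NeZero r := ⟨hr.ne'⟩
  obtain ⟨v, rfl⟩ := ZMod.intCast_surjective c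
  have h1 : ((Finset.Ico lo (lo + N)).filter fun x : ℤ => (x : ZMod r) = (v : ZMod r)) =
      (Finset.Ico lo (lo + N)).filter fun x : ℤ => x ≡ v [ZMOD (r : ℤ)] := by
    refine Finset.filter_congr fun x _ => ?_
    exact ZMod.intCast_eq_intCast_iff x v r
  have hr' : (0 : ℤ) < r := by exact_mod_cast hr
  have h2 := Int.Ico_filter_modEq_card lo (lo + N) hr' v
  rw [h1]
  have h3 : ((((Finset.Ico lo (lo + N)).filter fun x : ℤ => x ≡ v [ZMOD (r : ℤ)]).card : ℤ) : ℝ) =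
      ((max (⌈((lo + N - v : ℤ) : ℚ) / (r : ℤ)⌉ - ⌈((lo - v : ℤ) : ℚ) / (r : ℤ)⌉) 0 : ℤ) : ℝ) := by
    rw [h2]
    push_cast
    rfl
  rw [Int.cast_natCast] at h3
  rw [h3]
  have h4 : (⌈((lo + N - v : ℤ) : ℚ) / (r : ℤ)⌉ - ⌈((lo - v : ℤ) : ℚ) / (r : ℤ)⌉ : ℤ) ≤
      ((N : ℚ) / r + 1) := by
    have h5 := Int.ceil_lt_add_one (((lo + N - v : ℤ) : ℚ) / (r : ℤ))
    have h6 := Int.le_ceil (((lo - v : ℤ) : ℚ) / (r : ℤ))
    have h7 : ((lo + N - v : ℤ) : ℚ) / (r : ℤ) = ((lo - v : ℤ) : ℚ) / (r : ℤ) + N / r := by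
      push_cast
      ring
    push_cast at h5 h6 h7 ⊢
    linarith
  have h8 : ((max (⌈((lo + N - v : ℤ) : ℚ) / (r : ℤ)⌉ - ⌈((lo - v : ℤ) : ℚ) / (r : ℤ)⌉) 0 : ℤ) : ℚ) ≤
      ((N : ℚ) / r + 1) := by
    rw [Int.cast_max]
    refine max_le ?_ (by push_cast; positivity)
    push_cast at h4 ⊢
    exact h4
  have h9 : (((max (⌈((lo + N - v : ℤ) : ℚ) / (r : ℤ)⌉ - ⌈((lo - v : ℤ) : ℚ) / (r : ℤ)⌉) 0 : ℤ) : ℚ) : ℝ) ≤
      (((N : ℚ) / r + 1 : ℚ) : ℝ) := by exact_mod_cast h8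
  push_cast at h9 ⊢
  exact h9

/-- Integer points of a box in prescribed residue classes. -/
theorem count_box (r : ℕ) (hr : 0 < r) (S : Set (κ → ZMod r)) (lo : κ → ℤ) (N : κ → ℕ) :
    (({a | (∀ q, lo q ≤ a q ∧ a q < lo q + N q) ∧ (fun q => (a q : ZMod r)) ∈ S} :
      Set (κ → ℤ)).ncard : ℝ) ≤ S.ncard * ∏ q, ((N q : ℝ) / r + 1) := by
  classical
  have : NeZero r := ⟨hr.ne'⟩
  have hSfin : S.Finite := Set.toFinite S
  set T : Finset (κ → ℤ) := hSfin.toFinset.biUnion fun c =>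
    Fintype.piFinset fun q => (Finset.Ico (lo q) (lo q + N q)).filter
      fun x : ℤ => (x : ZMod r) = c q with hT
  have h1 : ({a | (∀ q, lo q ≤ a q ∧ a q < lo q + N q) ∧ (fun q => (a q : ZMod r)) ∈ S} :
      Set (κ → ℤ)) ⊆ T := by
    intro a ha
    rw [Finset.mem_coe, hT, Finset.mem_biUnion]
    refine ⟨fun q => (a q : ZMod r), hSfin.mem_toFinset.2 ha.2, ?_⟩
    rw [Fintype.mem_piFinset]
    intro q
    rw [Finset.mem_filter, Finset.mem_Ico]
    exact ⟨ha.1 q, rfl⟩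
  have h2 : (({a | (∀ q, lo q ≤ a q ∧ a q < lo q + N q) ∧ (fun q => (a q : ZMod r)) ∈ S} :
      Set (κ → ℤ)).ncard : ℝ) ≤ T.card := by
    rw [← Set.ncard_coe_finset]
    exact_mod_cast Set.ncard_le_ncard h1 T.finite_toSet
  refine h2.trans ?_
  have h3 : (T.card : ℝ) ≤ ∑ c ∈ hSfin.toFinset, ((Fintype.piFinset fun q =>
      (Finset.Ico (lo q) (lo q + N q)).filter fun x : ℤ => (x : ZMod r) = c q).card : ℝ) := by
    exact_mod_cast Finset.card_biUnion_le
  refine h3.trans ?_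
  have h4 : ∀ c ∈ hSfin.toFinset, ((Fintype.piFinset fun q =>
      (Finset.Ico (lo q) (lo q + N q)).filter fun x : ℤ => (x : ZMod r) = c q).card : ℝ) ≤
      ∏ q, ((N q : ℝ) / r + 1) := by
    intro c _
    rw [Fintype.card_piFinset, Nat.cast_prod]
    exact Finset.prod_le_prod (fun _ _ => Nat.cast_nonneg _) fun q _ =>
      count_class r hr (lo q) (N q) (c q)
  refine (Finset.sum_le_sum h4).trans ?_
  rw [Finset.sum_const, nsmul_eq_mul, Set.ncard_eq_toFinset_card S hSfin]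

end Pool.Agent.Helper65_Dens
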