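import Pool.Agent.Helper65_Dens.ParamPoly
import Pool.Agent.Helper65_Leo.Cofinite
import Pool.Agent.Helper85_Leo.Signature

/-!
# Parameters with independent logarithms
-/

set_option autoImplicit false
set_option linter.unusedSectionVars false

open Polynomial Filter Topology NumberField
open Pool.Agent.Helper85_Leo Pool.Agent.Helper65_Leo

namespace Pool.Agent.Helper65_Dens

variable {ι : Type} [Fintype ι] [DecidableEq ι] {m : ι → ℕ}

/-- There are roots of `fpoly m a` at which the units `gpoly m a i`, `i ≠ i₀`, have linearly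
independent logarithms. -/
def Good (m : ι → ℕ) {k : Type} [NontriviallyNormedField k] (i₀ : ι) (a : Par m → k) : Prop :=
  ∃ (e : ℕ) (y : {i // i ≠ i₀} → k), (∀ l, (fpoly m a).eval (y l) = 0) ∧
    (∀ i l : {i // i ≠ i₀}, ‖1 - ((gpoly m a i).eval (y l)) ^ e‖ < 1) ∧
    (Matrix.of fun i l : {i // i ≠ i₀} =>
      logFun (1 - ((gpoly m a i).eval (y l)) ^ e)).det ≠ 0

variable (p : ℕ) [hp : Fact p.Prime] {k : Type} [NontriviallyNormedField k]
  [NormedAlgebra ℚ_[p] k] [CompleteSpace k] [IsUltrametricDist k] [CharZero k] [IsAlgClosed k]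

include p in
theorem isOpen_good (i₀ : ι) (h0 : 0 < ∑ i, m i) : IsOpen {a : Par m → k | Good m i₀ a} := by
  rw [isOpen_iff_mem_nhds]
  rintro a ⟨e, y, hy, hn, hdet⟩
  -- continuity of everything
  have hc : ∀ i l : {i // i ≠ i₀}, Continuous fun z : (Par m → k) × ({i // i ≠ i₀} → k) =>
      1 - ((gpoly m z.1 i).eval (z.2 l)) ^ e := by
    intro i l
    have h1 : Continuous fun z : (Par m → k) × ({i // i ≠ i₀} → k) => (z.1, z.2 l) :=
      continuous_fst.prodMk ((continuous_apply l).comp continuous_snd)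
    exact continuous_const.sub (((continuous_eval_gpoly (m := m) (i : ι)).comp h1).pow e)
  have hL : ∀ i l : {i // i ≠ i₀}, ContinuousAt
      (fun z : (Par m → k) × ({i // i ≠ i₀} → k) =>
        logFun (1 - ((gpoly m z.1 i).eval (z.2 l)) ^ e)) (a, y) := by
    intro i l
    have h1 : ContinuousAt (logFun (k := k)) (1 - ((gpoly m a i).eval (y l)) ^ e) :=
      (analyticAt_logFun p (hn i l)).continuousAt
    exact ContinuousAt.comp (f := fun z : (Par m → k) × ({i // i ≠ i₀} → k) =>
      1 - ((gpoly m z.1 i).eval (z.2 l)) ^ e) (x := (a, y)) h1 (hc i l).continuousAt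
  have hD : ContinuousAt (fun z : (Par m → k) × ({i // i ≠ i₀} → k) =>
      (Matrix.of fun i l : {i // i ≠ i₀} =>
        logFun (1 - ((gpoly m z.1 i).eval (z.2 l)) ^ e)).det) (a, y) := by
    have h1 : Continuous fun M : Matrix {i // i ≠ i₀} {i // i ≠ i₀} k => M.det :=
      Continuous.matrix_det continuous_id
    have h2 : ContinuousAt (fun z : (Par m → k) × ({i // i ≠ i₀} → k) =>
        (Matrix.of fun i l : {i // i ≠ i₀} =>
        logFun (1 - ((gpoly m z.1 i).eval (z.2 l)) ^ e) :
          Matrix {i // i ≠ i₀} {i // i ≠ i₀} k)) (a, y) :=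
      continuousAt_pi.2 fun i => continuousAt_pi.2 fun l => hL i l
    exact ContinuousAt.comp (f := fun z : (Par m → k) × ({i // i ≠ i₀} → k) =>
        (Matrix.of fun i l : {i // i ≠ i₀} =>
        logFun (1 - ((gpoly m z.1 i).eval (z.2 l)) ^ e) :
          Matrix {i // i ≠ i₀} {i // i ≠ i₀} k)) (x := (a, y)) h1.continuousAt h2
  have hev : ∀ᶠ z : (Par m → k) × ({i // i ≠ i₀} → k) in 𝓝 (a, y),
      (∀ i l : {i // i ≠ i₀}, ‖1 - ((gpoly m z.1 i).eval (z.2 l)) ^ e‖ < 1) ∧
      (Matrix.of fun i l : {i // i ≠ i₀} =>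
        logFun (1 - ((gpoly m z.1 i).eval (z.2 l)) ^ e)).det ≠ 0 := by
    refine Filter.Eventually.and ?_ (hD.eventually_ne hdet)
    rw [eventually_all]
    intro i
    rw [eventually_all]
    intro l
    exact ((hc i l).norm.tendsto (a, y)).eventually_lt_const (hn i l)
  obtain ⟨u, hu, v, hv, huv⟩ := mem_nhds_prod_iff.1 hev
  obtain ⟨ρ, hρ, hball⟩ := Metric.mem_nhds_iff.1 hv
  have hroot : ∀ᶠ a' in 𝓝 a, ∀ l, ‖(fpoly m a').eval (y l)‖ < ρ ^ (∑ i, m i) := by
    rw [eventually_all]
    intro l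
    have h1 : Continuous fun a' : Par m → k => (fpoly m a').eval (y l) :=
      (continuous_eval_fpoly (m := m)).comp (continuous_id.prodMk continuous_const)
    refine (h1.norm.tendsto a).eventually_lt_const ?_
    rw [hy l, norm_zero]
    positivity
  filter_upwards [hroot, hu] with a' ha' hau
  have hmon := fpoly_monic a' h0
  have hex : ∀ l, ∃ w, (fpoly m a').eval w = 0 ∧ ‖w - y l‖ < ρ := by
    intro l
    obtain ⟨w, hw1, hw2⟩ := exists_root_near hmon (IsAlgClosed.splits _)
      (by rw [fpoly_natDegree]; exact h0) (y l)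
    refine ⟨w, hw1, ?_⟩
    rw [fpoly_natDegree] at hw2
    rw [norm_sub_rev]
    exact lt_of_pow_lt_pow_left₀ _ hρ.le (hw2.trans_lt (ha' l))
  choose w hw1 hw2 using hex
  have hwv : w ∈ v := by
    apply hball
    rw [Metric.mem_ball, dist_pi_lt_iff hρ]
    intro l
    rw [dist_eq_norm]
    exact hw2 l
  obtain ⟨h1, h2⟩ := huv (Set.mk_mem_prod hau hwv)
  exact ⟨e, w, hw1, h1, h2⟩

include p in
/-- Leopoldt's conjecture for the fields attached to integral good parameters. -/
theorem leopoldt_of_good {i₀ : ι} (h0 : 0 < ∑ i, m i) {a : Par m → ℤ}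
    (h : Good m i₀ (fun q => (a q : k))) (K : Type) [Field K] [NumberField K] (θ : K)
    (hgen : IntermediateField.adjoin ℚ {θ} = ⊤) (hroot : aeval θ (fpoly m a) = 0)
    (hfin : Module.finrank ℚ K = ∑ i, m i) (hrank : Units.rank K + 1 ≤ Fintype.card ι) :
    LeopoldtAt K p := by
  classical
  obtain ⟨e, y, hy, hn, hdet⟩ := h
  have hmapf : (fpoly m a).map (Int.castRingHom k) = fpoly m (fun q => (a q : k)) :=
    fpoly_map _ _
  have hmapg : ∀ i, (gpoly m a i).map (Int.castRingHom k) = gpoly m (fun q => (a q : k)) i :=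
    fun i => gpoly_map _ _ _
  have hσeval : ∀ (q : ℤ[X]) (σ : K →+* k), σ (aeval θ q) = (q.map (Int.castRingHom k)).eval (σ θ) := by
    intro q σ
    rw [aeval_def, hom_eval₂, eval_map]
    congr 1
    exact RingHom.ext_int _ _
  -- the roots are the conjugates
  have hprod : fpoly m (fun q => (a q : k)) = ∏ σ : K →+* k, (X - C (σ θ)) := by
    refine eq_prod_of_roots _ (fpoly_monic _ h0) (fun σ : K →+* k => σ θ)
      (embedding_injective θ hgen) (fun σ => ?_) ?_
    · rw [← hmapf, ← hσeval, hroot, map_zero]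
    · rw [Embeddings.card, hfin, fpoly_natDegree]
  have hσ : ∀ l, ∃ σ : K →+* k, σ θ = y l := by
    intro l
    have h1 := hy l
    rw [hprod, eval_prod, Finset.prod_eq_zero_iff] at h1
    obtain ⟨σ, -, h2⟩ := h1
    refine ⟨σ, ?_⟩
    simp only [eval_sub, eval_X, eval_C, sub_eq_zero] at h2
    exact h2.symm
  choose σ hσ using hσ
  -- the units
  have hθint : IsIntegral ℤ θ := ⟨fpoly m a, fpoly_monic a h0, hroot⟩
  let θ' : 𝓞 K := ⟨θ, hθint⟩
  have hcoe : ∀ q : ℤ[X], ((aeval θ' q : 𝓞 K) : K) = aeval θ q := by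
    intro q
    rw [aeval_def, aeval_def]
    refine (hom_eval₂ q (algebraMap ℤ (𝓞 K)) (algebraMap (𝓞 K) K) θ').trans ?_
    congr 1
  have hu : ∏ i, aeval θ' (gpoly m a i) = 1 := by
    apply RingOfIntegers.coe_injective
    rw [← map_prod]
    refine (hcoe _).trans ?_
    have h1 : ∏ i, gpoly m a i = fpoly m a + 1 := by unfold fpoly; ring
    rw [h1, map_add, hroot, zero_add, map_one, map_one]
  have hunit : ∀ i, IsUnit (aeval θ' (gpoly m a i)) := by
    intro i
    refine isUnit_of_dvd_one ?_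
    rw [← hu]
    exact Finset.dvd_prod_of_mem _ (Finset.mem_univ i)
  refine leopoldtAt_of_independent_logs p (fun i : {i // i ≠ i₀} => (hunit i).unit) e σ
    (fun l i => logFun (1 - ((gpoly m (fun q => (a q : k)) i).eval (y l)) ^ e)) ?_ ?_ ?_
  · intro l i
    have h1 := hasLog_logFun p (hn i l)
    rw [sub_sub_cancel] at h1
    have h2 : unitVal (σ l) (hunit i).unit = (gpoly m (fun q => (a q : k)) i).eval (y l) := by
      change σ l (((hunit i).unit : 𝓞 K) : K) = _
      rw [IsUnit.unit_spec, hcoe, hσeval, hmapg, hσ]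
    rw [h2]
    exact h1
  · intro c hc
    refine Matrix.eq_zero_of_vecMul_eq_zero hdet ?_
    funext l
    rw [Matrix.vecMul, dotProduct]
    exact hc l
  · have h1 : Fintype.card {i // i ≠ i₀} = Fintype.card ι - 1 := by
      rw [Fintype.card_subtype_compl, Fintype.card_subtype_eq]
    rw [h1]
    omega

end Pool.Agent.Helper65_Dens
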