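import Pool.Agent.Helper65_Dens.Good

/-!
# All nearby parameters are good
-/

set_option autoImplicit false
set_option linter.unusedSectionVars false

open Polynomial Filter Topology NumberField
open Pool.Agent.Helper85_Leo Pool.Agent.Helper65_Leo

namespace Pool.Agent.Helper65_Dens

variable {ι : Type} [Fintype ι] [DecidableEq ι] {m : ι → ℕ}

section ring

variable {S : Type*} [CommRing S]

/-- The product of the factors other than the one with index `i₀`. -/
noncomputable def restPoly (m : ι → ℕ) (i₀ : ι) (a : Par m → S) : S[X] :=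
  ∏ i : {i // i ≠ i₀}, gpoly m a i

theorem prod_gpoly_eq (i₀ : ι) (a : Par m → S) :
    ∏ i, gpoly m a i = gpoly m a i₀ * restPoly m i₀ a := by
  unfold restPoly
  rw [← Finset.mul_prod_erase _ _ (Finset.mem_univ i₀)]
  congr 1
  refine (Finset.prod_subtype (Finset.univ.erase i₀) (fun i => by simp) fun i => gpoly m a i)

theorem restPoly_update (i₀ : ι) (h0 : 0 < m i₀) (a : Par m → S) (t : S) :
    restPoly m i₀ (Function.update a ⟨i₀, ⟨0, h0⟩⟩ t) = restPoly m i₀ a := by
  unfold restPoly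
  exact Finset.prod_congr rfl fun i _ => gpoly_update_ne a i₀ i i.2 h0 t

theorem fpoly_update (i₀ : ι) (h0 : 0 < m i₀) (a : Par m → S) (t t₀ : S) :
    fpoly m (Function.update a ⟨i₀, ⟨0, h0⟩⟩ t) =
      fpoly m (Function.update a ⟨i₀, ⟨0, h0⟩⟩ t₀) + C (t - t₀) * restPoly m i₀ a := by
  unfold fpoly
  rw [prod_gpoly_eq i₀, prod_gpoly_eq i₀, restPoly_update, restPoly_update, gpoly_update_self,
    gpoly_update_self]
  simp only [C_sub]
  ring

theorem restPoly_monic (i₀ : ι) (a : Par m → S) : (restPoly m i₀ a).Monic :=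
  monic_prod_of_monic _ _ fun i _ => gpoly_monic a i

theorem restPoly_natDegree [Nontrivial S] (i₀ : ι) (a : Par m → S) :
    (restPoly m i₀ a).natDegree + m i₀ = ∑ i, m i := by
  have h1 := congrArg natDegree (prod_gpoly_eq i₀ a)
  rw [prod_gpoly_natDegree, (gpoly_monic a i₀).natDegree_mul (restPoly_monic i₀ a),
    gpoly_natDegree] at h1
  omega

end ring

variable (p : ℕ) [hp : Fact p.Prime] {k : Type} [NontriviallyNormedField k]
  [NormedAlgebra ℚ_[p] k] [CompleteSpace k] [IsUltrametricDist k] [CharZero k] [IsAlgClosed k]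

include p in
/-- If the fixed factors have no common roots, all parameters close to, but different from, a given
one are good. -/
theorem good_near {i₀ : ι} (hm : ∀ i, 0 < m i) (a : Par m → k)
    (hgg : ∀ i l : {i // i ≠ i₀}, i ≠ l → ∀ x, (gpoly m a i).eval x = 0 →
      (gpoly m a l).eval x ≠ 0) (t₀ : k) (e : ℕ) (he : 0 < e)
    (hunit : ∀ x, (fpoly m (Function.update a ⟨i₀, ⟨0, hm i₀⟩⟩ t₀)).eval x = 0 →
      ∀ i : {i // i ≠ i₀}, ‖(gpoly m a i).eval x ^ e - 1‖ < 1) :
    ∀ᶠ t in 𝓝[≠] t₀, Good m i₀ (Function.update a ⟨i₀, ⟨0, hm i₀⟩⟩ t) := by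
  classical
  set A : k[X] := fpoly m (Function.update a ⟨i₀, ⟨0, hm i₀⟩⟩ t₀) with hA
  set B : k[X] := -restPoly m i₀ a with hB
  have hn0 : 0 < ∑ i, m i := by
    rw [← restPoly_natDegree i₀ a]
    have := hm i₀
    omega
  have hAmon : A.Monic := fpoly_monic _ hn0
  have hAdeg : A.natDegree = ∑ i, m i := fpoly_natDegree _
  have hBdeg : B.natDegree < A.natDegree := by
    rw [hB, natDegree_neg, hAdeg, ← restPoly_natDegree i₀ a]
    have := hm i₀
    omega
  have hB0 : B ≠ 0 := neg_ne_zero.2 (restPoly_monic i₀ a).ne_zero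
  have hcopA : ∀ x : k, A.eval x = 0 → B.eval x ≠ 0 := by
    intro x h1 h2
    have h3 : A = gpoly m (Function.update a ⟨i₀, ⟨0, hm i₀⟩⟩ t₀) i₀ * restPoly m i₀ a - 1 := by
      rw [hA]
      unfold fpoly
      rw [prod_gpoly_eq i₀, restPoly_update]
    rw [hB, eval_neg, neg_eq_zero] at h2
    rw [h3, eval_sub, eval_mul, h2, mul_zero, eval_one, zero_sub] at h1
    exact one_ne_zero (neg_eq_zero.1 h1)
  set E := (∑ i, m i).factorial with hE
  have hEpos : 0 < E := Nat.factorial_pos _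
  have hdvd : ∀ m, 0 < m → m ≤ A.natDegree → m ∣ E := by
    intro m h1 h2
    rw [hAdeg] at h2
    exact Nat.dvd_factorial h1 h2
  obtain ⟨J, hJ, φ, a1, a2, a3, a4, a5, -, -⟩ := exists_branches A B hAmon.ne_zero hcopA E hEpos
    (fun x hx => hdvd _ ((rootMultiplicity_pos hAmon.ne_zero).2 hx)
      (rootMultiplicity_le_natDegree' A x))
  let G : {i // i ≠ i₀} → k[X] := fun i => gpoly m a i
  have hG : ∀ i, 0 < (G i).natDegree := by
    intro i
    change 0 < (gpoly m a i).natDegree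
    rw [gpoly_natDegree]
    exact hm i
  have hGB : ∀ i x, (G i).eval x = 0 → B.eval x = 0 := by
    intro i x h1
    rw [hB, eval_neg, neg_eq_zero, restPoly, eval_prod]
    exact Finset.prod_eq_zero (Finset.mem_univ i) h1
  let v : {i // i ≠ i₀} → J → k → k := fun i j s => (G i).eval (φ j s)
  have hv : ∀ i j, AnalyticAt k (v i j) 0 := fun i j => analyticAt_aeval (a2 j) (G i)
  have hve : ∀ i j, ‖v i j 0 ^ e - 1‖ < 1 := fun i j => hunit _ (a3 j) i
  choose L hL1 hL2 hL3 using fun i j => exists_analytic_log p (hv i j) e (hve i j)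
  have he0 : (e : k) ≠ 0 := by exact_mod_cast he.ne'
  obtain ⟨c, hc1, hc2⟩ := exists_minor_not_eventually_zero A B hAmon hB0 hBdeg hcopA E hEpos hdvd
    φ a1 a2 a3 a4 a5 G hG hGB hgg (e : k) he0 L hL1 hL3
  have hdet : ∀ᶠ s in 𝓝[≠] (0 : k), (Matrix.of fun i l => L i (c l) s).det ≠ 0 :=
    (hc1.eventually_eq_zero_or_eventually_ne_zero).resolve_left hc2
  have hsmall : ∀ᶠ s in 𝓝 (0 : k), ∀ i j, ‖1 - v i j s ^ e‖ < 1 := by
    refine eventually_all.2 fun i => eventually_all.2 fun j => ?_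
    have h1 : AnalyticAt k (fun s => 1 - v i j s ^ e) 0 :=
      analyticAt_const.fun_sub ((hv i j).fun_pow e)
    refine (h1.continuousAt.norm.tendsto).eventually_lt_const ?_
    rw [norm_sub_rev]
    exact hve i j
  have hall : ∀ᶠ s in 𝓝[≠] (0 : k), (∀ j, A.eval (φ j s) = s ^ E * B.eval (φ j s)) ∧
      (∀ i j, HasLog p (v i j s ^ e) (L i j s)) ∧ (∀ i j, ‖1 - v i j s ^ e‖ < 1) ∧
      (Matrix.of fun i l => L i (c l) s).det ≠ 0 := by
    refine (eventually_all.2 fun j => (a4 j).filter_mono nhdsWithin_le_nhds).and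
      ((eventually_all.2 fun i => eventually_all.2 fun j =>
        (hL2 i j).filter_mono nhdsWithin_le_nhds).and
      ((hsmall.filter_mono nhdsWithin_le_nhds).and hdet))
  rw [eventually_nhdsWithin_iff, Metric.eventually_nhds_iff] at hall
  obtain ⟨ρ, hρ, hball⟩ := hall
  rw [eventually_nhdsWithin_iff, Metric.eventually_nhds_iff]
  refine ⟨ρ ^ E, by positivity, fun t ht1 ht2 => ?_⟩
  obtain ⟨s, hs⟩ := IsAlgClosed.exists_pow_nat_eq (t - t₀) hEpos
  have hs0 : s ≠ 0 := by
    rintro rfl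
    rw [zero_pow hEpos.ne'] at hs
    exact ht2 (sub_eq_zero.1 hs.symm)
  have hsρ : dist s 0 < ρ := by
    rw [dist_zero_right]
    rw [dist_eq_norm, ← hs, norm_pow] at ht1
    exact lt_of_pow_lt_pow_left₀ E hρ.le ht1
  obtain ⟨b1, b2, b3, b4⟩ := hball hsρ hs0
  have hg' : ∀ i : {i // i ≠ i₀}, gpoly m (Function.update a ⟨i₀, ⟨0, hm i₀⟩⟩ t) i =
      gpoly m a i := fun i => gpoly_update_ne a i₀ i i.2 (hm i₀) t
  refine ⟨e, fun l => φ (c l) s, fun l => ?_, fun i l => ?_, ?_⟩
  · rw [fpoly_update i₀ (hm i₀) a t t₀, eval_add, eval_mul, eval_C, ← hs, ← hA, b1, hB, eval_neg]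
    ring
  · rw [hg']
    exact b3 i (c l)
  · have h1 : (Matrix.of fun i l : {i // i ≠ i₀} => logFun (1 -
        ((gpoly m (Function.update a ⟨i₀, ⟨0, hm i₀⟩⟩ t) i).eval (φ (c l) s)) ^ e)) =
        (Matrix.of fun i l => L i (c l) s) := by
      ext i l
      rw [Matrix.of_apply, Matrix.of_apply, hg']
      have h2 := hasLog_logFun p (b3 i (c l))
      rw [sub_sub_cancel] at h2
      exact h2.unique (b2 i (c l))
    rw [h1]
    exact b4

end Pool.Agent.Helper65_Dens
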