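import Mathlib

/-!
# Closed subsets of compact groups with finite sections are null
-/

set_option autoImplicit false
set_option linter.unusedSectionVars false

open MeasureTheory Filter Topology

namespace Pool.Agent.Helper65_Dens

section sections

variable {Y T : Type} [TopologicalSpace Y] [AddCommGroup Y] [IsTopologicalAddGroup Y]
  [CompactSpace Y] [T2Space Y] [SecondCountableTopology Y] [MeasurableSpace Y] [BorelSpace Y]
  [TopologicalSpace T] [AddCommGroup T] [IsTopologicalAddGroup T]
  [CompactSpace T] [T2Space T] [SecondCountableTopology T] [MeasurableSpace T] [BorelSpace T]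

/-- If almost all sections of a closed set in the direction of a subgroup are finite then the set
is null. -/
theorem null_of_sections (μ : Measure Y) [μ.IsAddHaarMeasure] [(𝓝[≠] (0 : T)).NeBot]
    (ψ : T →+ Y) (hψ : Continuous ψ) (Z : Set Y) (hZ : IsClosed Z)
    (h : ∀ᵐ a ∂μ, {t : T | a + ψ t ∈ Z}.Finite) : μ Z = 0 := by
  let ν : Measure T := Measure.addHaar
  have hfinμ : IsFiniteMeasure μ := CompactSpace.isFiniteMeasure
  have hfinν : IsFiniteMeasure ν := CompactSpace.isFiniteMeasure
  have hno : NullSingletonClass ν := inferInstance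
  let S : Set (Y × T) := {z | z.1 + ψ z.2 ∈ Z}
  have hS : IsClosed S := hZ.preimage (continuous_fst.add (hψ.comp continuous_snd))
  have hSm : MeasurableSet S := hS.measurableSet
  have h1 : (μ.prod ν) S = 0 := by
    rw [Measure.measure_prod_null hSm]
    filter_upwards [h] with a ha
    exact ha.measure_zero ν
  rw [Measure.prod_apply_symm hSm] at h1
  have h2 : ∀ t : T, μ ((fun a => (a, t)) ⁻¹' S) = μ Z := by
    intro t
    have h3 : (fun a => (a, t)) ⁻¹' S = (fun a => a + ψ t) ⁻¹' Z := rfl
    rw [h3, measure_preimage_add_right]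
  rw [lintegral_congr h2, lintegral_const, mul_eq_zero] at h1
  refine h1.resolve_right ?_
  exact (Measure.measure_univ_ne_zero).2 (NeZero.ne ν)

end sections

section classes

variable {Y A : Type} [PseudoMetricSpace Y] [AddCommGroup Y] [IsTopologicalAddGroup Y]
  [CompactSpace Y] [MeasurableSpace Y] [BorelSpace Y] [AddCommGroup A] [Finite A]

/-- The classes modulo a finite index subgroup which meet a null closed set. -/
theorem ncard_le_of_measure_le (μ : Measure Y) [μ.IsAddHaarMeasure] [IsFiniteMeasure μ]
    (π : Y →+ A) (hπ : Function.Surjective π) (hopen : ∀ c, MeasurableSet (π ⁻¹' {c}))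
    (S : Set A) (ε : ENNReal) (h : μ (π ⁻¹' S) ≤ ε * μ Set.univ) :
    (S.ncard : ENNReal) ≤ ε * (Nat.card A : ENNReal) := by
  classical
  have := Fintype.ofFinite A
  have hfib : ∀ c, μ (π ⁻¹' {c}) = μ (π ⁻¹' {0}) := by
    intro c
    obtain ⟨y, hy⟩ := hπ c
    have h1 : π ⁻¹' {0} = (fun x => x + y) ⁻¹' (π ⁻¹' {c}) := by
      ext x
      simp only [Set.mem_preimage, Set.mem_singleton_iff, map_add, hy]
      constructor
      · intro h; rw [h, zero_add]
      · intro h
        have h' : π x + c = 0 + c := by rw [h, zero_add]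
        exact add_right_cancel h'
    rw [h1, measure_preimage_add_right]
  have hset : ∀ S : Set A, μ (π ⁻¹' S) = (S.ncard : ENNReal) * μ (π ⁻¹' {0}) := by
    intro S
    have h1 : π ⁻¹' S = ⋃ c ∈ S.toFinset, π ⁻¹' {c} := by
      ext x
      simp
    rw [h1, measure_biUnion_finset]
    · rw [Finset.sum_congr rfl fun c _ => hfib c, Finset.sum_const, nsmul_eq_mul,
        Set.ncard_eq_toFinset_card']
    · intro c _ c' _ hcc
      rw [Function.onFun, Set.disjoint_left]
      intro x hx hx'
      exact hcc (hx.symm.trans hx')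
    · intro c _
      exact hopen c
  have huniv : μ Set.univ = (Nat.card A : ENNReal) * μ (π ⁻¹' {0}) := by
    rw [← Set.preimage_univ (f := π), hset, Set.ncard_univ]
  have h0 : μ (π ⁻¹' {0}) ≠ 0 := by
    intro h0
    rw [h0, mul_zero] at huniv
    exact (Measure.measure_univ_ne_zero).2 (NeZero.ne μ) huniv
  have htop : μ (π ⁻¹' {0}) ≠ ⊤ := measure_ne_top _ _
  rw [hset, huniv, ← mul_assoc] at h
  exact (ENNReal.mul_le_mul_iff_left h0 htop).1 h

end classes

end Pool.Agent.Helper65_Dens
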