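import Pool.Agent.Helper65_Dens.Count

/-!
# Null closed sets over the `p`-adic integers
-/

set_option autoImplicit false
set_option linter.unusedSectionVars false

open MeasureTheory Filter Topology

namespace Pool.Agent.Helper65_Dens

variable (p : ℕ) [hp : Fact p.Prime] {κ : Type} [Fintype κ] [DecidableEq κ]

/-- Reduction modulo `p ^ M`. -/
noncomputable def redMod (κ : Type) (M : ℕ) : (κ → ℤ_[p]) →+ (κ → ZMod (p ^ M)) :=
  AddMonoidHom.compLeft (PadicInt.toZModPow M : ℤ_[p] →+* ZMod (p ^ M)).toAddMonoidHom κ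

theorem redMod_apply (M : ℕ) (a : κ → ℤ_[p]) (q : κ) :
    redMod p κ M a q = PadicInt.toZModPow M (a q) := rfl

theorem redMod_surjective (M : ℕ) : Function.Surjective (redMod p κ M) := by
  intro c
  choose b hb using fun q => ZMod.ringHom_surjective (PadicInt.toZModPow (p := p) M) (c q)
  exact ⟨b, funext hb⟩

theorem redMod_eq_iff (M : ℕ) (a b : κ → ℤ_[p]) :
    redMod p κ M a = redMod p κ M b ↔ dist a b ≤ (p : ℝ) ^ (-(M : ℤ)) := by
  have hp0 : (0 : ℝ) < p := by exact_mod_cast hp.out.pos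
  rw [dist_pi_le_iff (by positivity), funext_iff]
  refine forall_congr' fun q => ?_
  rw [redMod_apply, redMod_apply, dist_eq_norm, PadicInt.norm_le_pow_iff_mem_span_pow,
    ← PadicInt.ker_toZModPow, RingHom.mem_ker, map_sub, sub_eq_zero]

theorem redMod_intCast (M : ℕ) (a : κ → ℤ) :
    redMod p κ M (fun q => (a q : ℤ_[p])) = fun q => (a q : ZMod (p ^ M)) := by
  funext q
  rw [redMod_apply, map_intCast]

theorem neBot_zero : (𝓝[≠] (0 : ℤ_[p])).NeBot := by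
  have h1 : Tendsto (fun n : ℕ => (p : ℤ_[p]) ^ n) atTop (𝓝[≠] 0) := by
    rw [tendsto_nhdsWithin_iff]
    constructor
    · rw [tendsto_zero_iff_norm_tendsto_zero]
      simp only [norm_pow, PadicInt.norm_p]
      refine tendsto_pow_atTop_nhds_zero_of_lt_one (by positivity) ?_
      exact inv_lt_one_of_one_lt₀ (by exact_mod_cast hp.out.one_lt)
    · refine Eventually.of_forall fun n => ?_
      exact pow_ne_zero _ (by exact_mod_cast hp.out.ne_zero)
  exact h1.neBot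

/-- A null closed set meets few residue classes. -/
theorem exists_classes [MeasurableSpace (κ → ℤ_[p])] [BorelSpace (κ → ℤ_[p])]
    (μ : Measure (κ → ℤ_[p])) [μ.IsAddHaarMeasure] (Z : Set (κ → ℤ_[p])) (hZ : IsClosed Z)
    (h0 : μ Z = 0) (ε : ℝ) (hε : 0 < ε) :
    ∃ M : ℕ, (((redMod p κ M) '' Z).ncard : ℝ) ≤ ε * ((p : ℝ) ^ M) ^ (Fintype.card κ) := by
  have hfinμ : IsFiniteMeasure μ := CompactSpace.isFiniteMeasure
  have hp0 : (0 : ℝ) < p := by exact_mod_cast hp.out.pos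
  have huniv0 : μ Set.univ ≠ 0 := (Measure.measure_univ_ne_zero).2 (NeZero.ne μ)
  have hlt : μ Z < ENNReal.ofReal ε * μ Set.univ := by
    rw [h0]
    exact ENNReal.mul_pos (by simpa using hε) huniv0
  obtain ⟨U, hZU, hU, hμU⟩ := Set.exists_isOpen_lt_of_lt Z _ hlt
  obtain ⟨δ, hδ, hthick⟩ := hZ.isCompact.exists_thickening_subset_open hU hZU
  obtain ⟨M, hM⟩ := exists_pow_lt_of_lt_one hδ (y := (p : ℝ)⁻¹)
    (inv_lt_one_of_one_lt₀ (by exact_mod_cast hp.out.one_lt))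
  refine ⟨M, ?_⟩
  have hsub : (redMod p κ M) ⁻¹' ((redMod p κ M) '' Z) ⊆ U := by
    rintro a ⟨z, hz, hza⟩
    apply hthick
    rw [Metric.mem_thickening_iff]
    refine ⟨z, hz, ?_⟩
    have h1 := (redMod_eq_iff p M z a).1 hza
    rw [dist_comm]
    refine lt_of_le_of_lt h1 ?_
    rw [zpow_neg, zpow_natCast, ← inv_pow]
    exact hM
  have hle : μ ((redMod p κ M) ⁻¹' ((redMod p κ M) '' Z)) ≤ ENNReal.ofReal ε * μ Set.univ :=
    (measure_mono hsub).trans hμU.le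
  have hmeas : ∀ c, MeasurableSet ((redMod p κ M) ⁻¹' {c}) := by
    intro c
    obtain ⟨b, hb⟩ := redMod_surjective p M c
    have h1 : (redMod p κ M) ⁻¹' {c} = Metric.closedBall b ((p : ℝ) ^ (-(M : ℤ))) := by
      ext a
      rw [Set.mem_preimage, Set.mem_singleton_iff, ← hb, redMod_eq_iff, Metric.mem_closedBall]
    rw [h1]
    exact Metric.isClosed_closedBall.measurableSet
  have : NeZero (p ^ M) := ⟨pow_ne_zero _ hp.out.ne_zero⟩
  have h2 := ncard_le_of_measure_le μ (redMod p κ M) (redMod_surjective p M) hmeas _ _ hle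
  have h3 : (Nat.card (κ → ZMod (p ^ M)) : ENNReal) = ENNReal.ofReal (((p : ℝ) ^ M) ^ (Fintype.card κ)) := by
    rw [Nat.card_eq_fintype_card, Fintype.card_fun, ZMod.card]
    rw [← ENNReal.ofReal_natCast]
    push_cast
    rfl
  rw [h3, ← ENNReal.ofReal_mul hε.le, ← ENNReal.ofReal_natCast] at h2
  exact (ENNReal.ofReal_le_ofReal_iff (by positivity)).1 h2

/-- Integer vectors in a null closed set. -/
theorem bnull_of_null [MeasurableSpace (κ → ℤ_[p])] [BorelSpace (κ → ℤ_[p])]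
    (μ : Measure (κ → ℤ_[p])) [μ.IsAddHaarMeasure] (Z : Set (κ → ℤ_[p])) (hZ : IsClosed Z)
    (h0 : μ Z = 0) : BNull {a : κ → ℤ | (fun q => (a q : ℤ_[p])) ∈ Z} := by
  intro ε hε
  obtain ⟨M, hM⟩ := exists_classes p μ Z hZ h0 (ε / 2 ^ Fintype.card κ) (by positivity)
  have hpM : 0 < p ^ M := pow_pos hp.out.pos M
  have hpM' : (0 : ℝ) < (p : ℝ) ^ M := by exact_mod_cast hpM
  refine ⟨p ^ M, fun lo N hN => ?_⟩
  have h1 := count_box (p ^ M) hpM ((redMod p κ M) '' Z) lo N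
  have hfin : ({a | (∀ q, lo q ≤ a q ∧ a q < lo q + N q) ∧
      (fun q => (a q : ZMod (p ^ M))) ∈ (redMod p κ M) '' Z} : Set (κ → ℤ)).Finite :=
    box_inter_finite lo N {a | (fun q => (a q : ZMod (p ^ M))) ∈ (redMod p κ M) '' Z}
  have h2 : ({a | (∀ q, lo q ≤ a q ∧ a q < lo q + N q) ∧
      a ∈ {a : κ → ℤ | (fun q => (a q : ℤ_[p])) ∈ Z}} : Set (κ → ℤ)) ⊆
      {a | (∀ q, lo q ≤ a q ∧ a q < lo q + N q) ∧
      (fun q => (a q : ZMod (p ^ M))) ∈ (redMod p κ M) '' Z} := by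
    rintro a ⟨ha, haZ⟩
    exact ⟨ha, _, haZ, redMod_intCast p M a⟩
  have h3 : (({a | (∀ q, lo q ≤ a q ∧ a q < lo q + N q) ∧
      a ∈ {a : κ → ℤ | (fun q => (a q : ℤ_[p])) ∈ Z}} : Set (κ → ℤ)).ncard : ℝ) ≤
      ((redMod p κ M) '' Z).ncard * ∏ q, ((N q : ℝ) / (p ^ M : ℕ) + 1) := by
    refine le_trans ?_ h1
    exact_mod_cast Set.ncard_le_ncard h2 hfin
  refine h3.trans ?_
  have h4 : ∏ q, ((N q : ℝ) / (p ^ M : ℕ) + 1) ≤ ∏ q, (2 / (p : ℝ) ^ M * N q) := by
    refine Finset.prod_le_prod (fun q _ => by positivity) fun q _ => ?_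
    have h5 : ((p : ℝ) ^ M) ≤ N q := by exact_mod_cast hN q
    push_cast
    rw [div_add_one hpM'.ne', div_mul_eq_mul_div]
    refine div_le_div_of_nonneg_right ?_ hpM'.le
    linarith
  have h6 : ∏ q, (2 / (p : ℝ) ^ M * N q) = (2 / (p : ℝ) ^ M) ^ (Fintype.card κ) *
      ∏ q, (N q : ℝ) := by
    rw [Finset.prod_mul_distrib, Finset.prod_const, Finset.card_univ]
  have h7 : 0 ≤ ∏ q, (N q : ℝ) := Finset.prod_nonneg fun _ _ => Nat.cast_nonneg _
  calc ((redMod p κ M) '' Z).ncard * ∏ q, ((N q : ℝ) / (p ^ M : ℕ) + 1)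
      ≤ (ε / 2 ^ Fintype.card κ * ((p : ℝ) ^ M) ^ (Fintype.card κ)) *
        ((2 / (p : ℝ) ^ M) ^ (Fintype.card κ) * ∏ q, (N q : ℝ)) := by
        rw [← h6]
        refine mul_le_mul hM h4 (Finset.prod_nonneg fun _ _ => by positivity) (by positivity)
    _ = ε * ∏ q, (N q : ℝ) := by
        rw [div_pow]
        field_simp

end Pool.Agent.Helper65_Dens
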