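import Pool.Agent.Helper65_Dens.GoodLoc
import Pool.Agent.Helper65_Dens.Zp

/-!
# Powers of units over the `p`-adic integers
-/

set_option autoImplicit false
set_option linter.unusedSectionVars false

open Polynomial Filter Topology
open Pool.Agent.Helper65_Leo

namespace Pool.Agent.Helper65_Dens

variable (p : ℕ) [hp : Fact p.Prime] (k : Type) [NontriviallyNormedField k]
  [NormedAlgebra ℚ_[p] k] [IsUltrametricDist k]

/-- The embedding of the `p`-adic integers. -/
noncomputable def emb : ℤ_[p] →+* k := (algebraMap ℚ_[p] k).comp PadicInt.Coe.ringHom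

theorem norm_emb (x : ℤ_[p]) : ‖emb p k x‖ = ‖x‖ := by
  change ‖algebraMap ℚ_[p] k (x : ℚ_[p])‖ = ‖x‖
  rw [norm_algebraMap', PadicInt.norm_def]

theorem continuous_emb : Continuous (emb p k) :=
  (continuous_algebraMap ℚ_[p] k).comp continuous_subtype_val

theorem emb_injective : Function.Injective (emb p k) :=
  (algebraMap ℚ_[p] k).injective.comp Subtype.val_injective

variable {k}

theorem norm_eval_le_one (g : ℤ_[p][X]) {x : k} (hx : ‖x‖ ≤ 1) :
    ‖(g.map (emb p k)).eval x‖ ≤ 1 := by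
  rw [eval_map, eval₂_eq_sum_range]
  refine IsUltrametricDist.norm_sum_le_of_forall_le_of_nonneg zero_le_one fun i _ => ?_
  rw [norm_mul, norm_pow, norm_emb]
  exact mul_le_one₀ (PadicInt.norm_le_one _) (by positivity) (pow_le_one₀ (norm_nonneg _) hx)

theorem norm_root_le_one {f : ℤ_[p][X]} (hf : f.Monic) {x : k}
    (hx : (f.map (emb p k)).eval x = 0) : ‖x‖ ≤ 1 := by
  by_contra hcon
  push Not at hcon
  have h1 := hf.as_sum
  rw [h1, Polynomial.map_add, eval_add, Polynomial.map_pow, map_X, eval_pow, eval_X,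
    Polynomial.map_sum, eval_finsetSum] at hx
  have h2 : x ^ f.natDegree = -∑ i ∈ Finset.range f.natDegree,
      ((C (f.coeff i) * X ^ i).map (emb p k)).eval x := by linear_combination hx
  rcases Nat.eq_zero_or_pos f.natDegree with h0 | h0
  · rw [h0] at h2
    simp at h2
  have h3 : ‖x‖ ^ f.natDegree ≤ ‖x‖ ^ (f.natDegree - 1) := by
    rw [← norm_pow, h2, norm_neg]
    refine IsUltrametricDist.norm_sum_le_of_forall_le_of_nonneg (by positivity) fun i hi => ?_
    rw [Finset.mem_range] at hi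
    rw [Polynomial.map_mul, map_C, Polynomial.map_pow, map_X, eval_mul, eval_C, eval_pow, eval_X,
      norm_mul, norm_pow, norm_emb]
    calc ‖f.coeff i‖ * ‖x‖ ^ i ≤ 1 * ‖x‖ ^ i :=
          mul_le_mul_of_nonneg_right (PadicInt.norm_le_one _) (by positivity)
      _ = ‖x‖ ^ i := one_mul _
      _ ≤ ‖x‖ ^ (f.natDegree - 1) := pow_le_pow_right₀ hcon.le (by omega)
  have h4 : ‖x‖ ^ (f.natDegree - 1) < ‖x‖ ^ f.natDegree :=
    pow_lt_pow_right₀ hcon (by omega)
  linarith

/-- Some power of a unit is congruent to one. -/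
theorem exists_unit_pow_zp {f : ℤ_[p][X]} (hf : f.Monic) {x : k}
    (hx : (f.map (emb p k)).eval x = 0) (g : ℤ_[p][X])
    (hg : ‖(g.map (emb p k)).eval x‖ = 1) :
    ∃ e : ℕ, 0 < e ∧ ‖((g.map (emb p k)).eval x) ^ e - 1‖ < 1 := by
  have hx1 := norm_root_le_one p hf hx
  set u := (g.map (emb p k)).eval x with hu
  have hne : (f.map (emb p k)) ≠ 0 := (hf.map _).ne_zero
  have hval : ∀ r : ℕ, ((g ^ r %ₘ f).map (emb p k)).eval x = u ^ r := by
    intro r
    have h1 := modByMonic_add_div (g ^ r) f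
    have h2 := congrArg (fun q : ℤ_[p][X] => (q.map (emb p k)).eval x) h1
    simp only [Polynomial.map_add, Polynomial.map_mul, eval_add, eval_mul, Polynomial.map_pow,
      eval_pow] at h2
    rw [hx, zero_mul, add_zero] at h2
    exact h2
  have hne1 : ∀ r s : ℕ, r < s → (∀ j : Fin f.natDegree,
      PadicInt.toZMod ((g ^ r %ₘ f).coeff j) = PadicInt.toZMod ((g ^ s %ₘ f).coeff j)) →
      ∃ e : ℕ, 0 < e ∧ ‖u ^ e - 1‖ < 1 := by
    intro r s hrs hj
    refine ⟨s - r, by omega, ?_⟩
    have hcoeff : ∀ j, ‖((g ^ s %ₘ f) - (g ^ r %ₘ f)).coeff j‖ < 1 := by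
      intro j
      rcases Nat.lt_or_ge j f.natDegree with h | h
      · rw [coeff_sub]
        have h1 := hj ⟨j, h⟩
        have h2 : (g ^ s %ₘ f).coeff j - (g ^ r %ₘ f).coeff j ∈
            RingHom.ker (PadicInt.toZMod : ℤ_[p] →+* ZMod p) := by
          rw [RingHom.mem_ker, map_sub, ← h1, sub_self]
        rw [PadicInt.ker_toZMod] at h2
        rwa [← PadicInt.mem_nonunits]
      · have h1 : ∀ q : ℤ_[p][X], (q %ₘ f).coeff j = 0 := by
          intro q
          refine coeff_eq_zero_of_degree_lt ?_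
          refine (degree_modByMonic_lt q hf).trans_le ?_
          rw [degree_eq_natDegree hf.ne_zero]
          exact_mod_cast h
        rw [coeff_sub, h1, h1, sub_self, norm_zero]
        exact one_pos
    have hsmall : ‖u ^ s - u ^ r‖ < 1 := by
      rw [← hval, ← hval, ← eval_sub, ← Polynomial.map_sub, eval_map, eval₂_eq_sum_range]
      refine Finset.sum_induction _ (fun z : k => ‖z‖ < 1) ?_ ?_ ?_
      · intro a b ha hb
        exact lt_of_le_of_lt (IsUltrametricDist.norm_add_le_max _ _) (max_lt ha hb)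
      · rw [norm_zero]; exact one_pos
      · intro j _
        rw [norm_mul, norm_pow, norm_emb]
        calc _ ≤ ‖((g ^ s %ₘ f) - (g ^ r %ₘ f)).coeff j‖ * 1 :=
              mul_le_mul_of_nonneg_left (pow_le_one₀ (norm_nonneg _) hx1) (norm_nonneg _)
          _ < 1 := by rw [mul_one]; exact hcoeff j
    have h1 : u ^ s - u ^ r = u ^ r * (u ^ (s - r) - 1) := by
      rw [mul_sub, ← pow_add, mul_one]
      congr 2
      omega
    rw [h1, norm_mul, norm_pow, hg, one_pow, one_mul] at hsmall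
    exact hsmall
  obtain ⟨r, s, hrs, hF⟩ := Finite.exists_ne_map_eq_of_infinite
    (fun r : ℕ => fun j : Fin f.natDegree => PadicInt.toZMod ((g ^ r %ₘ f).coeff j))
  rcases Nat.lt_or_gt_of_ne hrs with h | h
  · exact hne1 r s h fun j => congrFun hF j
  · exact hne1 s r h fun j => (congrFun hF j).symm

theorem exists_common_pow {I : Type} [Finite I] (u : I → k)
    (h : ∀ i, ∃ e : ℕ, 0 < e ∧ ‖u i ^ e - 1‖ < 1) :
    ∃ e : ℕ, 0 < e ∧ ∀ i, ‖u i ^ e - 1‖ < 1 := by
  classical
  have := Fintype.ofFinite I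
  choose e he1 he2 using h
  refine ⟨∏ i, e i, Finset.prod_pos fun i _ => he1 i, fun i => ?_⟩
  rw [← Finset.mul_prod_erase _ _ (Finset.mem_univ i), pow_mul]
  exact norm_pow_sub_one_lt (x := (1 : k)) (by rw [norm_one]) (he2 i) _ (by simp)

end Pool.Agent.Helper65_Dens
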